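import Pool.Agent.P.MP_878f14_gt.S6.Fr

/-! Three segments of nowhere vanishing triples of quaternions. -/

namespace Pool.Agent.P.MP_878f14_gt.S6

open Pool.Agent.P.MP_878f14_gt.HT.Q Filter Topology Function Matrix
open scoped ContDiff

noncomputable section

def qI : H4 := ![0, 1, 0, 0]

def qJ : H4 := ![0, 0, 1, 0]

def qK : H4 := ![0, 0, 0, 1]

def pq (y₁ y₂ : H4) : H4 := y₁ - qm qJ y₂

def qq (y₁ y₂ : H4) : H4 := -qm qI (y₁ + qm qJ y₂)

def Dq (c : ℝ) (a q z : H4) : H4 := c • q + qm (qm (qm a (qc z)) qK) z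

def nuq (c : ℝ) (a q D : H4) : ℝ :=
  c * qm q (qc a) 0 + (1 - c ^ 2) * qm (qm qI D) (qc a) 0

def Xq (c : ℝ) (a q D : H4) : H4 :=
  c • D + (1 - c ^ 2) • qm qI D + (1 - c) • (qm q (qc a) 0 • qm qI a - qm (qm qI D) (qc a) 0 • a)

def x0 (c₂ : ℝ) (a a' : H4) : Fin 3 → H4 := ![0, c₂ • a, a']

def x1 (c : ℝ) (a p q z : H4) : Fin 3 → H4 :=
  ![p - a, Xq c a q (Dq c a q z), nuq c a q (Dq c a q z) • a]

def x2 (a p q : H4) : Fin 3 → H4 := ![p, q, qm qI a]

def x3 (p q : H4) : Fin 3 → H4 := ![p, q, 0]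

/-- the relations between the three sections -/
def Rel2 (p q z : H4) : Prop :=
  qm (qm (qc z) qI) z = qm (qc p) q - qm (qc p) q 0 • q1 ∧ ns p + ns q + 2 * ns z = 4

theorem Rel3.rel2 {y₁ y₂ z : H4} (h : Rel3 y₁ y₂ z) : Rel2 (pq y₁ y₂) (qq y₁ y₂) z := by
  obtain ⟨h1, h2, h3, h4⟩ := h
  constructor
  · ext i
    fin_cases i <;> simp [qm, qc, qI, qJ, pq, qq, q1]
    · ring
    · linear_combination h1 - h2
    · linear_combination -2 * h4
    · linear_combination 2 * h3
  · simp [ns, qm, qI, qJ, pq, qq]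
    linear_combination 2 * h1 + 2 * h2

theorem ns_qI : ns qI = 1 := by simp [ns, qI]

theorem zero_qm (a : H4) : qm 0 a = 0 := by
  rw [← zero_smul ℝ (0 : H4), smul_qm, zero_smul, zero_smul]

theorem qm_zero (a : H4) : qm a 0 = 0 := by
  rw [← zero_smul ℝ (0 : H4), qm_smul, zero_smul, zero_smul]

theorem qc_zero : qc 0 = 0 := by
  ext i
  fin_cases i <;> simp [qc]

theorem Rel2.ne {p q z : H4} (h : Rel2 p q z) (hp : p = 0) (hq : q = 0) : False := by
  obtain ⟨h1, h2⟩ := h
  have h3 := congrArg ns h1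
  rw [hq, qm_zero, Pi.zero_apply, zero_smul, sub_zero, ns_qm, ns_qm, ns_qc, ns_qI,
    ns_eq_zero.2 rfl] at h3
  rw [hp, hq, ns_eq_zero.2 rfl] at h2
  have : ns z = 2 := by linarith
  rw [this] at h3
  norm_num at h3

theorem Xq_zero {c : ℝ} (hc : c ^ 2 = 1) (q z : H4) : Xq c 0 q (Dq c 0 q z) = q := by
  simp only [Xq, Dq, zero_qm, qm_zero, qc_zero, hc, sub_self, zero_smul, add_zero, smul_zero,
    smul_smul, ← sq, one_smul]

theorem Xq_aux (c S r m : ℝ) (a D : H4) :
    qm (c • D + S • qm qI D + (1 - c) • (r • qm qI a - -m • a)) (qc a) =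
      ![c * qm D (qc a) 0 - S * qm D (qc a) 1 + (1 - c) * (m * ns a),
      c * qm D (qc a) 1 + S * qm D (qc a) 0 + (1 - c) * (r * ns a),
      c * qm D (qc a) 2 - S * qm D (qc a) 3, c * qm D (qc a) 3 + S * qm D (qc a) 2] := by
  have e : qm (c • D + S • qm qI D + (1 - c) • (r • qm qI a - -m • a)) (qc a) =
      c • qm D (qc a) + S • qm qI (qm D (qc a)) +
        (1 - c) • (r • qm qI (qm a (qc a)) - -m • qm a (qc a)) := by
    generalize qc a = b
    ext i
    fin_cases i <;> simp [qm, qI, vecHead, vecTail] <;> ring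
  have e2 : qm a (qc a) = ns a • q1 := by
    ext i
    fin_cases i <;> simp [qm, qc, ns, q1] <;> ring
  rw [e, e2]
  generalize qm D (qc a) = E
  ext i
  fin_cases i <;> simp [qm, qI, q1, vecHead, vecTail] <;> ring

theorem core {c c₂ t t' : ℝ} {a a' q z : H4} (ht : t ≠ 0) (ha : ns a = 1 - c ^ 2)
    (haa : qm a' (qc a) 0 = -(c * c₂)) (h : Rel2 a q z)
    (e1 : t' • c₂ • a + t • Xq c a q (Dq c a q z) = 0)
    (e2 : t' • a' + t • nuq c a q (Dq c a q z) • a = 0) : False := by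
  by_cases h0 : a = 0
  · have hc : c ^ 2 = 1 := by
      rw [h0, ns_eq_zero.2 rfl] at ha
      linarith
    rw [h0, Xq_zero hc, smul_zero, smul_zero, zero_add] at e1
    exact h.ne h0 ((smul_eq_zero.1 e1).resolve_left ht)
  have hS := ns_pos h0
  set D := Dq c a q z with hD
  set S := 1 - c ^ 2 with hSd
  set D' := qm D (qc a) with hD'
  set Q := qm q (qc a) with hQ
  set Z := qm z (qc a) with hZ
  have hs2 : 0 < c ^ 2 + S ^ 2 := by
    rw [← ha]
    positivity
  have d1 : D' = c • Q + qm (qm (qc Z) qK) Z := by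
    rw [hD', hD, hQ, hZ]
    ext i
    fin_cases i <;> simp [Dq, qm, qc, qK] <;> ring
  have d0 : D' 0 = c * Q 0 := by
    rw [d1]
    simp [qm, qc, qK]
    ring
  have hm : qm (qm qI D) (qc a) 0 = -D' 1 := by
    rw [qm_assoc, ← hD']
    simp [qm, qI]
  have hν : nuq c a q D = c * Q 0 - S * D' 1 := by
    rw [nuq, hm, ← hQ]
    ring
  have hX : qm (Xq c a q D) (qc a) = ![c * D' 0 - S * D' 1 + (1 - c) * (D' 1 * ns a),
      c * D' 1 + S * D' 0 + (1 - c) * (Q 0 * ns a), c * D' 2 - S * D' 3, c * D' 3 + S * D' 2] := by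
    rw [Xq, hm, ← hQ, ← hSd, Xq_aux, ← hD']
  have f1 : (t' * c₂ * ns a) • q1 + t • qm (Xq c a q D) (qc a) = 0 := by
    have := congrArg (fun x => qm x (qc a)) e1
    simp only [zero_qm] at this
    rw [← this]
    generalize Xq c a q D = X
    ext i
    fin_cases i <;> simp [qm, qc, q1, ns] <;> ring
  have f2 : t' * -(c * c₂) + t * (nuq c a q D * ns a) = 0 := by
    have := congrFun (congrArg (fun x => qm x (qc a)) e2) 0
    simp only [zero_qm, Pi.zero_apply] at this
    rw [← this, ← haa]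
    generalize nuq c a q D = ν
    simp [qm, qc, ns]
    ring
  rw [hX, ha] at f1
  rw [hν, ha] at f2
  have g0 := congrFun f1 0
  have g1 := congrFun f1 1
  have g2 := congrFun f1 2
  have g3 := congrFun f1 3
  simp [q1, ht] at g0 g1 g2 g3
  rw [d0] at g0 g1
  have n0 : c * Q 0 - S * D' 1 = 0 := by
    have : t * ((c ^ 2 + S ^ 2) * (c * Q 0 - S * D' 1)) = 0 := by
      linear_combination c * g0 + S * f2
    exact (mul_eq_zero.1 ((mul_eq_zero.1 this).resolve_left ht)).resolve_left hs2.ne'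
  have r0 : Q 0 = 0 := by
    have : (c ^ 2 + S ^ 2) * Q 0 = 0 := by linear_combination c * n0 + S * g1
    exact (mul_eq_zero.1 this).resolve_left hs2.ne'
  have k1 : D' 1 = 0 := by
    have : (c ^ 2 + S ^ 2) * D' 1 = 0 := by linear_combination c * g1 - S * n0
    exact (mul_eq_zero.1 this).resolve_left hs2.ne'
  have k2 : D' 2 = 0 := by
    have : (c ^ 2 + S ^ 2) * D' 2 = 0 := by linear_combination c * g2 + S * g3
    exact (mul_eq_zero.1 this).resolve_left hs2.ne'
  have k3 : D' 3 = 0 := by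
    have : (c ^ 2 + S ^ 2) * D' 3 = 0 := by linear_combination c * g3 - S * g2
    exact (mul_eq_zero.1 this).resolve_left hs2.ne'
  have k : D' = 0 := by
    ext i
    fin_cases i
    exacts [by simp [d0, r0], k1, k2, k3]
  have w1 : qm (qm (qc Z) qI) Z = ns a • Q := by
    have e : qm (qm (qc Z) qI) Z = qm (qm a (qm (qm (qc z) qI) z)) (qc a) := by
      rw [hZ, qc_mul, qc_qc]
      simp only [qm_assoc]
    have e' : qm (qm a (qm (qc a) q - qm (qc a) q 0 • q1)) (qc a) =
        ns a • qm q (qc a) - (ns a * qm q (qc a) 0) • q1 := by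
      ext i
      fin_cases i <;> simp [qm, qc, q1, ns] <;> ring
    rw [e, h.1, e', ← hQ, r0, mul_zero, zero_smul, sub_zero]
  have w2 : qm (qm (qc Z) (c • qI + S • qK)) Z = 0 := by
    have e : qm (qm (qc Z) (c • qI + S • qK)) Z =
        c • qm (qm (qc Z) qI) Z + S • qm (qm (qc Z) qK) Z := by
      ext i
      fin_cases i <;> simp [qm, qc, qI, qK] <;> ring
    rw [e, w1, ha, smul_comm, ← smul_add, ← d1, k, smul_zero]
  have w3 : ns Z = 0 := by
    have e := congrArg ns w2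
    have e2 : ns (c • qI + S • qK) = c ^ 2 + S ^ 2 := by simp [ns, qI, qK]
    rw [ns_qm, ns_qm, ns_qc, e2, ns_eq_zero.2 rfl] at e
    rcases mul_eq_zero.1 e with e | e
    · exact (mul_eq_zero.1 e).resolve_right hs2.ne'
    · exact e
  have w4 : ns Q = 0 := by
    rw [ns_eq_zero.1 w3, qm_zero] at w1
    exact ns_eq_zero.2 ((smul_eq_zero.1 w1.symm).resolve_left hS.ne')
  rw [hZ, ns_qm, ns_qc] at w3
  rw [hQ, ns_qm, ns_qc] at w4
  have := h.2
  rw [(mul_eq_zero.1 w3).resolve_right hS.ne', (mul_eq_zero.1 w4).resolve_right hS.ne', ha] at this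
  nlinarith [sq_nonneg c]

variable {c c₂ θ : ℝ} {a a' p q z : H4}

theorem seg1 (ha : ns a = 1 - c ^ 2) (ha' : ns a' = 1 - c₂ ^ 2)
    (haa : qm a' (qc a) 0 = -(c * c₂)) (h : Rel2 p q z) :
    x0 c₂ a a' + θ • (x1 c a p q z - x0 c₂ a a') ≠ 0 := by
  intro e
  have e0 := congrFun e 0
  have e1 := congrFun e 1
  have e2 := congrFun e 2
  simp only [x0, x1, Pi.add_apply, Pi.smul_apply, Pi.sub_apply, Pi.zero_apply, cons_val_zero,
    cons_val_one, cons_val] at e0 e1 e2
  by_cases ht : θ = 0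
  · rw [ht, zero_smul, add_zero] at e1 e2
    rw [e2, ns_eq_zero.2 rfl] at ha'
    rw [e2, zero_qm, Pi.zero_apply] at haa
    have h2 : c₂ ≠ 0 := fun h => by
      rw [h] at ha'
      norm_num at ha'
    rw [(smul_eq_zero.1 e1).resolve_left h2, ns_eq_zero.2 rfl] at ha
    have h3 : c = 0 := (mul_eq_zero.1 (neg_eq_zero.1 haa.symm)).resolve_right h2
    rw [h3] at ha
    norm_num at ha
  · rw [zero_add, sub_zero] at e0
    have hp : p = a := sub_eq_zero.1 ((smul_eq_zero.1 e0).resolve_left ht)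
    subst hp
    refine core (t' := 1 - θ) ht ha haa h ?_ ?_
    · rw [← e1]
      module
    · rw [← e2]
      module

theorem seg2 (ha : ns a = 1 - c ^ 2) (h : Rel2 p q z) :
    x1 c a p q z + θ • (x2 a p q - x1 c a p q z) ≠ 0 := by
  intro e
  have e0 := congrFun e 0
  have e1 := congrFun e 1
  have e2 := congrFun e 2
  simp only [x2, x1, Pi.add_apply, Pi.smul_apply, Pi.sub_apply, Pi.zero_apply, cons_val_zero,
    cons_val_one, cons_val] at e0 e1 e2
  by_cases h0 : a = 0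
  · have hc : c ^ 2 = 1 := by
      rw [h0, ns_eq_zero.2 rfl] at ha
      linarith
    rw [h0, Xq_zero hc, sub_self, smul_zero, add_zero] at e1
    rw [h0, sub_zero, sub_self, smul_zero, add_zero] at e0
    exact h.ne e0 e1
  have ht : θ = 0 := by
    have := congrFun (congrArg (fun x => qm x (qc a)) e2) 1
    simp only [zero_qm, Pi.zero_apply] at this
    have e3 : θ * ns a = 0 := by
      rw [← this]
      generalize nuq c a q (Dq c a q z) = ν
      simp [qm, qc, ns, qI, vecHead, vecTail]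
      ring
    exact (mul_eq_zero.1 e3).resolve_right (ns_ne h0)
  rw [ht, zero_smul, add_zero] at e0 e1 e2
  have hp : p = a := sub_eq_zero.1 e0
  subst hp
  refine core (t' := 0) (t := 1) (c₂ := 0) (a' := 0) one_ne_zero ha ?_ h ?_ ?_
  · rw [zero_qm, mul_zero, neg_zero, Pi.zero_apply]
  · rw [e1, zero_smul, smul_zero, add_zero]
  · rw [e2, zero_smul, smul_zero, add_zero]

theorem x3_ne (h : Rel2 p q z) : x3 p q ≠ 0 := fun e => h.ne (congrFun e 0) (congrFun e 1)

theorem seg3 (h : Rel2 p q z) : x2 a p q + θ • (x3 p q - x2 a p q) ≠ 0 := by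
  intro e
  have e0 := congrFun e 0
  have e1 := congrFun e 1
  simp only [x2, x3, Pi.add_apply, Pi.smul_apply, Pi.sub_apply, Pi.zero_apply, cons_val_zero,
    cons_val_one, sub_self, smul_zero, add_zero] at e0 e1
  exact h.ne e0 e1

end

end Pool.Agent.P.MP_878f14_gt.S6
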