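import Pool.Agent.P.MP_878f14_gt.HT.Q.Germ
import Pool.Agent.P.MP_878f14_gt.HT.Q.Null
import Pool.Agent.P.MP_878f14_gt.HT.Q.Ext2

/-! Concordance over a subset. -/

namespace Pool.Agent.P.MP_878f14_gt.S6

open Pool.Agent.P.MP_878f14_gt.HT.Q Filter Topology Function
open scoped ContDiff

noncomputable section

variable {n : ℕ} {V V' : Type} [NormedAddCommGroup V] [NormedSpace ℝ V] [NormedAddCommGroup V']
  [NormedSpace ℝ V'] {S : Set V}

/-- the inclusion of the cylinder -/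
def ic (S : Set V) : S × ℝ → V × ℝ := Prod.map Subtype.val id

omit [NormedSpace ℝ V] in
theorem ic_ind : IsInducing (ic S) := IsInducing.subtypeVal.prodMap IsInducing.id

/-- concordance over a subset -/
def CS (S : Set V) (F G : Rw n S) : Prop :=
  ∃ H : Rw n (S × ℝ), (∀ p, IsAt (ic S) H p) ∧
    (∀ x s, s ≤ 0 → H (x, s) = pb Prod.fst F (x, s)) ∧
      ∀ x s, 1 ≤ s → H (x, s) = pb Prod.fst G (x, s)

variable {F G K : Rw n S}

theorem cs_isAt_rep {H : Rw n (S × ℝ)} {σ : ℝ → ℝ} (hσ : ContDiff ℝ ∞ σ) {p : S × ℝ}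
    (h : IsAt (ic S) H (p.1, σ p.2)) :
    IsAt (ic S) (pb (fun p : S × ℝ => (p.1, σ p.2)) H) p :=
  IsAt.pb (m := fun p : S × ℝ => (p.1, σ p.2)) ic_ind ic_ind.continuous
    (fun p : V × ℝ => (p.1, σ p.2))
    (sm_of (contDiff_fst.prodMk (hσ.comp contDiff_snd)) _) (.of_forall fun _ => rfl) h

omit [NormedSpace ℝ V] in
theorem cs_pb_rep {H : Rw n (S × ℝ)} {σ : ℝ → ℝ} (hσ : Continuous σ) {x : S} {s : ℝ}
    (h : H (x, σ s) = pb Prod.fst F (x, σ s)) :
    pb (fun p : S × ℝ => (p.1, σ p.2)) H (x, s) = pb Prod.fst F (x, s) := by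
  have e : pb (fun p : S × ℝ => (p.1, σ p.2)) H (x, s) =
      pb (fun p : S × ℝ => (p.1, σ p.2)) (pb Prod.fst F) (x, s) := pb_congr h
  have c : ContinuousAt (fun p : S × ℝ => (p.1, σ p.2)) (x, s) :=
    (continuous_fst.prodMk (hσ.comp continuous_snd)).continuousAt
  rw [e, pb_pb c]
  rfl

theorem CS.symm (h : CS S F G) : CS S G F := by
  obtain ⟨H, h1, h2, h3⟩ := h
  have hσ : ContDiff ℝ ∞ fun s : ℝ => 1 - s := contDiff_const.sub contDiff_id
  refine ⟨pb (fun p : S × ℝ => (p.1, 1 - p.2)) H, fun p => cs_isAt_rep hσ (h1 _),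
    fun x s hs => ?_, fun x s hs => ?_⟩
  · exact cs_pb_rep hσ.continuous (h3 _ _ (by linarith))
  · exact cs_pb_rep hσ.continuous (h2 _ _ (by linarith))

theorem CS.trans (h : CS S F G) (h' : CS S G K) : CS S F K := by
  classical
  obtain ⟨H, a1, a2, a3⟩ := h
  obtain ⟨H', b1, b2, b3⟩ := h'
  have h1 : ContDiff ℝ ∞ fun s : ℝ => 3 * s := contDiff_const.mul contDiff_id
  have h2 : ContDiff ℝ ∞ fun s : ℝ => 3 * s - 2 := h1.sub contDiff_const
  refine ⟨fun p => if p.2 ≤ 1 / 2 then pb (fun p : S × ℝ => (p.1, 3 * p.2)) H p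
    else pb (fun p : S × ℝ => (p.1, 3 * p.2 - 2)) H' p, fun p => ?_, fun x s hs => ?_,
    fun x s hs => ?_⟩
  · rcases lt_or_ge p.2 (2 / 3) with hs | hs
    · refine (cs_isAt_rep h1 (a1 _)).congr ?_
      have e1 : ∀ᶠ p' : S × ℝ in 𝓝 p, p'.2 < 2 / 3 :=
        (continuousAt_snd (p := p)).eventually (gt_mem_nhds hs)
      filter_upwards [e1] with p' hp
      obtain ⟨y, r⟩ := p'
      by_cases hr : r ≤ 1 / 2
      · simp only [hr, if_true]
      · simp only [hr, if_false]
        have hr' : 1 / 2 < r := not_le.1 hr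
        have hp' : r < 2 / 3 := hp
        exact (cs_pb_rep h2.continuous (b2 _ _ (by linarith))).trans
          (cs_pb_rep h1.continuous (a3 _ _ (by linarith))).symm
    · refine (cs_isAt_rep h2 (b1 _)).congr ?_
      have e1 : ∀ᶠ p' : S × ℝ in 𝓝 p, 1 / 2 < p'.2 :=
        (continuousAt_snd (p := p)).eventually (lt_mem_nhds (by linarith : (1 / 2 : ℝ) < p.2))
      filter_upwards [e1] with p' hp
      simp only [not_le.2 hp, if_false]
  · have hs' : s ≤ 1 / 2 := by linarith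
    simp only [hs', if_true]
    exact cs_pb_rep h1.continuous (a2 _ _ (by linarith))
  · have hs' : ¬ s ≤ 1 / 2 := not_le.2 (by linarith)
    simp only [hs', if_false]
    exact cs_pb_rep h2.continuous (b3 _ _ (by linarith))

theorem cs_of_conc {F G : Rw n V} (h : Conc S F G) :
    CS S (pb Subtype.val F) (pb Subtype.val G) := by
  obtain ⟨H, hH⟩ := h
  have hc : ∀ x ∈ S, CcAt H F G x := fun x hx => hH.self_of_nhdsSet x hx
  have hl : ∀ (x : S) (s : ℝ) (L : Rw n V), H (x.1, s) = pb Prod.fst L (x.1, s) →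
      pb (ic S) H (x, s) = pb Prod.fst (pb Subtype.val L) (x, s) := by
    intro x s L hL
    rw [pb_pb continuousAt_fst]
    exact (pb_congr (m := ic S) hL).trans (pb_pb ic_ind.continuous.continuousAt _ _)
  refine ⟨pb (ic S) H, fun p => ?_, fun x s hs => hl x s F ((hc x.1 x.2).2.1 s hs),
    fun x s hs => hl x s G ((hc x.1 x.2).2.2 s hs)⟩
  exact IsAt.pb (ι := id) IsInducing.id ic_ind.continuous id (sm_of contDiff_id _)
    (.of_forall fun _ => rfl) ((hc p.1.1 p.1.2).1 p.2)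

theorem nullHtp_of_cs {F : Fam n S} (h : CS S hor (toR F)) : NullHtp F := by
  obtain ⟨H, h1, h2, h3⟩ := h
  let μ : (S ×ˢ Set.Icc (0 : ℝ) 1 : Set (V × ℝ)) → S × ℝ := fun t => (⟨t.1.1, t.2.1⟩, t.1.2)
  have hs : ∀ t, IsAt Subtype.val (pb μ H) t := fun t =>
    IsAt.pb ic_ind continuous_subtype_val id (sm_of contDiff_id _) (.of_forall fun _ => rfl) (h1 _)
  obtain ⟨K, hK⟩ := exists_toR hs
  have hl : ∀ (c : Set.Icc (0 : ℝ) 1) (t : S) (L : Rw n S), L t ≤ nb n t →
      H (t, c.1) = pb Prod.fst L (t, c.1) → toR (level c K) t = L t := by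
    intro c t L hL0 hL
    have c1 : Continuous fun t : S => ((t.1, c.1) : V × ℝ) :=
      continuous_subtype_val.prodMk continuous_const
    have c2 : Continuous fun t : S => ((t, c.1) : S × ℝ) := continuous_id.prodMk continuous_const
    rw [Germ_toR_level, hK]
    refine (pb_pb (c1.subtype_mk _).continuousAt μ H).trans ?_
    exact ((pb_congr (m := fun t : S => ((t, c.1) : S × ℝ)) hL).trans
      (pb_pb c2.continuousAt _ _)).trans (pb_id hL0)
  have hF : ∀ t, toR F t ≤ nb n t := fun t => by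
    have e : ∀ g : Germ (nb n t) Prop, gf g ≤ nb n t := fun g => by
      induction g using Germ.inductionOn with | h R => ?_
      rw [gf_coe]
      exact inf_le_left
    exact e (F t)
  refine ⟨K, isStr_iff.2 (hK ▸ hs), toR_injective (funext fun t => ?_),
    toR_injective (funext fun t => ?_)⟩
  · rw [hl 0 t hor inf_le_left (h2 _ _ le_rfl), toR_triv]
  · exact hl 1 t _ (hF t) (h3 _ _ le_rfl)

/-- the restriction to `P` is a structure -/
def GoodOn (Δ : Rw n V') (P : Set V') : Prop :=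
  ∀ t : P, IsAt Subtype.val (pb Subtype.val Δ) t

variable {Δ : Rw n V'} {P : Set V'}

theorem GoodOn.isAt (h : GoodOn Δ P) {Z : Type} [TopologicalSpace Z] {ι : Z → V}
    (hι : Continuous ι) {M : V → V'} (hM : ContDiff ℝ ∞ M) (hP : ∀ z, M (ι z) ∈ P) (z : Z) :
    IsAt ι (pb (M ∘ ι) Δ) z := by
  let μ : Z → P := fun z => ⟨M (ι z), hP z⟩
  have hμ : Continuous μ := (hM.continuous.comp hι).subtype_mk _
  refine (IsAt.pb (m := μ) IsInducing.subtypeVal hι M (sm_of hM _) (.of_forall fun _ => rfl)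
    (h (μ z))).congr (.of_forall fun z' => ?_)
  exact (pb_pb hμ.continuousAt Subtype.val Δ).symm

theorem GoodOn.mono (h : GoodOn Δ P) {P' : Set V'} (hP : P' ⊆ P) : GoodOn Δ P' := fun t =>
  h.isAt (V := V') continuous_subtype_val contDiff_id (fun z => hP z.2) t

theorem GoodOn.seg (h : GoodOn Δ P) {a b : V → V'} (ha : ContDiff ℝ ∞ a) (hb : ContDiff ℝ ∞ b)
    (hP : ∀ x ∈ S, ∀ θ : ℝ, 0 ≤ θ → θ ≤ 1 → a x + θ • (b x - a x) ∈ P) :
    CS S (pb (a ∘ Subtype.val) Δ) (pb (b ∘ Subtype.val) Δ) := by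
  have hτ : ContDiff ℝ ∞ fun s : ℝ => Real.smoothTransition (3 * s - 1) :=
    Real.smoothTransition.contDiff.comp ((contDiff_const.mul contDiff_id).sub contDiff_const)
  let M : V × ℝ → V' := fun p => a p.1 + Real.smoothTransition (3 * p.2 - 1) • (b p.1 - a p.1)
  have hM : ContDiff ℝ ∞ M := (ha.comp contDiff_fst).add
    ((hτ.comp contDiff_snd).smul ((hb.comp contDiff_fst).sub (ha.comp contDiff_fst)))
  refine ⟨pb (M ∘ ic S) Δ, h.isAt ic_ind.continuous hM fun p => hP _ p.1.2 _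
    (Real.smoothTransition.nonneg _) (Real.smoothTransition.le_one _), fun x s hs => ?_,
    fun x s hs => ?_⟩
  · rw [pb_pb continuousAt_fst]
    refine pb_congr_map ?_
    have e1 : ∀ᶠ p : S × ℝ in 𝓝 (x, s), p.2 < 1 / 3 :=
      (continuousAt_snd (p := (x, s))).eventually (gt_mem_nhds (by linarith : s < 1 / 3))
    filter_upwards [e1] with p hp
    change a p.1.1 + Real.smoothTransition (3 * p.2 - 1) • (b p.1.1 - a p.1.1) = a p.1.1
    rw [Real.smoothTransition.zero_of_nonpos (by linarith), zero_smul, add_zero]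
  · rw [pb_pb continuousAt_fst]
    refine pb_congr_map ?_
    have e1 : ∀ᶠ p : S × ℝ in 𝓝 (x, s), 2 / 3 < p.2 :=
      (continuousAt_snd (p := (x, s))).eventually (lt_mem_nhds (by linarith : (2 / 3 : ℝ) < s))
    filter_upwards [e1] with p hp
    change a p.1.1 + Real.smoothTransition (3 * p.2 - 1) • (b p.1.1 - a p.1.1) = b p.1.1
    rw [Real.smoothTransition.one_of_one_le (by linarith), one_smul, add_sub_cancel]

theorem GoodOn.null {c : ℕ} (hF : ∀ p < c, SK.WFill (KK n) p) [FiniteDimensional ℝ V']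
    (h : GoodOn Δ P) (hP : IsCompact P) (hd : dimH P < ((c + 1 : ℕ) : ENNReal)) {m : V → V'}
    {L : V → Fin n → Fin n → ℝ} (hm : ContDiff ℝ ∞ m) (hL : ContDiff ℝ ∞ L)
    (hdet : ∀ x ∈ S, (Matrix.of (L x)).det ≠ 0) (hS : ∀ x ∈ S, m x ∈ P) :
    CS S (kr (lin (L ∘ Subtype.val))) (pl (m ∘ Subtype.val) (lin (L ∘ Subtype.val)) Δ) := by
  obtain ⟨G, hG⟩ := exists_ext hP h
  have h1 : Conc P hor G := conc_hor hF hP hd fun x hx => (hG ⟨x, hx⟩).1
  have h2 := cs_of_conc (h1.pl_lin (M' := S) (fun x _ => sm_of hm x) (fun x _ => sm_of hL x) hdet hS)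
  have cv : ∀ t : S, ContinuousAt (Subtype.val : S → V) t := fun t =>
    continuous_subtype_val.continuousAt
  have cL : Continuous (L ∘ (Subtype.val : S → V)) := hL.continuous.comp continuous_subtype_val
  have cm : Continuous (m ∘ (Subtype.val : S → V)) := hm.continuous.comp continuous_subtype_val
  have e : ∀ (K : Rw n V') (t : S), pb Subtype.val (pl m (lin L) K) t =
      pl (m ∘ Subtype.val) (lin (L ∘ Subtype.val)) K t := fun K t => pl_pl (tn_snd (cv t)) _ _ _
  let μ : S → P := fun x => ⟨m x.1, hS x.1 x.2⟩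
  have cμ : Continuous μ := cm.subtype_mk _
  have e2 : ∀ (K : Rw n V') (t : S), pl μ (lin (L ∘ Subtype.val)) (pb Subtype.val K) t =
      pl (m ∘ Subtype.val) (lin (L ∘ Subtype.val)) K t := fun K t =>
    pl_pl (tn_lin cμ.continuousAt cL.continuousAt) _ _ _
  have e3 : pb Subtype.val (pl m (lin L) hor) = kr (lin (L ∘ (Subtype.val : S → V))) :=
    funext fun t => (e hor t).trans (pl_hor (tn_lin cm.continuousAt cL.continuousAt))
  have e4 : pb Subtype.val (pl m (lin L) G) =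
      pl (m ∘ (Subtype.val : S → V)) (lin (L ∘ Subtype.val)) Δ := funext fun t => by
    rw [e, ← e2, ← e2]
    exact pl_congr (hG (μ t)).2.symm
  rwa [e3, e4] at h2

end

end Pool.Agent.P.MP_878f14_gt.S6
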