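import Pool.Agent.P.MP_878f14_gt.S6.Mat
import Pool.Agent.P.MP_878f14_gt.HT.Q.Null

/-! An equivariant structure over the complement of the origin in the quaternionic 3-space. -/

namespace Pool.Agent.P.MP_878f14_gt.S6

open Pool.Agent.P.MP_878f14_gt.HT.Q Filter Topology Function Matrix
open scoped ContDiff

noncomputable section

/-- a right action of the quaternions with a multiplicative size -/
structure QM (V : Type) [NormedAddCommGroup V] [NormedSpace ℝ V] where
  act : V → H4 → V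
  nv : V → ℝ
  cd_act : ContDiff ℝ ∞ fun p : V × H4 => act p.1 p.2
  cd_nv : ContDiff ℝ ∞ nv
  act_act : ∀ x a b, act (act x a) b = act x (qm a b)
  act_one : ∀ x, act x q1 = x
  nv_act : ∀ x a, nv (act x a) = nv x * ns a
  norm_le : ∀ x, ‖x‖ ^ 2 ≤ nv x
  nv_zero : nv 0 = 0

theorem norm_le_ns (x : H4) : ‖x‖ ^ 2 ≤ ns x := by
  have h : ‖x‖ ≤ √(ns x) := by
    rw [pi_norm_le_iff_of_nonneg (Real.sqrt_nonneg _)]
    intro i
    rw [Real.norm_eq_abs]
    refine Real.abs_le_sqrt ?_
    fin_cases i <;> simp [ns] <;>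
      nlinarith [sq_nonneg (x 0), sq_nonneg (x 1), sq_nonneg (x 2), sq_nonneg (x 3)]
  calc ‖x‖ ^ 2 ≤ √(ns x) ^ 2 := pow_le_pow_left₀ (norm_nonneg _) h 2
    _ = ns x := Real.sq_sqrt (ns_nonneg x)

/-- the quaternions -/
def QM.base : QM H4 where
  act := qm
  nv := ns
  cd_act := contDiff_qm
  cd_nv := contDiff_ns
  act_act := qm_assoc
  act_one := qm_q1
  nv_act := ns_qm
  norm_le := norm_le_ns
  nv_zero := ns_eq_zero.2 rfl

variable {V : Type} [NormedAddCommGroup V] [NormedSpace ℝ V] (Q : QM V)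

theorem QM.nonneg (x : V) : 0 ≤ Q.nv x := (sq_nonneg _).trans (Q.norm_le x)

theorem QM.pos {x : V} (hx : x ≠ 0) : 0 < Q.nv x :=
  (pow_pos (norm_pos_iff.2 hx) 2).trans_le (Q.norm_le x)

theorem QM.ne {x : V} (hx : 0 < Q.nv x) : x ≠ 0 := fun e => by
  rw [e, Q.nv_zero] at hx
  exact lt_irrefl _ hx

/-- one more coordinate -/
def QM.cone : QM (H4 × V) where
  act x a := (qm x.1 a, Q.act x.2 a)
  nv x := ns x.1 + Q.nv x.2
  cd_act := (contDiff_qm.comp (contDiff_fst.fst.prodMk contDiff_snd)).prodMk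
    (Q.cd_act.comp (contDiff_fst.snd.prodMk contDiff_snd))
  cd_nv := (contDiff_ns.comp contDiff_fst).add (Q.cd_nv.comp contDiff_snd)
  act_act x a b := by simp only [qm_assoc, Q.act_act]
  act_one x := by simp only [qm_q1, Q.act_one]
  nv_act x a := by simp only [ns_qm, Q.nv_act, add_mul]
  norm_le x := by
    have h1 := norm_le_ns x.1
    have h2 := Q.norm_le x.2
    have h3 := ns_nonneg x.1
    have h4 := Q.nonneg x.2
    rw [Prod.norm_def]
    rcases le_total ‖x.1‖ ‖x.2‖ with h | h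
    · rw [max_eq_right h]
      linarith
    · rw [max_eq_left h]
      linarith
  nv_zero := by simp only [Prod.fst_zero, Prod.snd_zero, Q.nv_zero, ns_eq_zero.2 rfl, add_zero]

/-- equivariance -/
def Eqv (δ : Rw 6 V) : Prop :=
  ∀ (Z : Type) [TopologicalSpace Z] (z : Z) (x : Z → V) (c : Z → H4) (L : Z → M6),
    ContinuousAt x z → ContinuousAt c z → ContinuousAt L z → x z ≠ 0 → c z ≠ 0 →
    pl x (lin fun y => m6 (Lm6 (c y) * Matrix.of (L y))) δ z =
      pl (fun y => Q.act (x y) (c y)) (lin L) δ z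

/-- an equivariant structure off the origin -/
def Good (δ : Rw 6 V) : Prop := (∀ x ≠ 0, IsAt id δ x) ∧ Eqv Q δ

variable {Z : Type} [TopologicalSpace Z] {z : Z}

theorem cont_LmL {c : Z → H4} {L : Z → M6} (hc : ContinuousAt c z) (hL : ContinuousAt L z) :
    ContinuousAt (fun y => m6 (Lm6 (c y) * Matrix.of (L y))) z :=
  contDiff_mul6.continuous.continuousAt.comp
    ((contDiff_Lm6.continuous.continuousAt.comp hc).prodMk hL)

theorem QM.cont_act {x : Z → V} {c : Z → H4} (hx : ContinuousAt x z) (hc : ContinuousAt c z) :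
    ContinuousAt (fun y => Q.act (x y) (c y)) z :=
  Q.cd_act.continuous.continuousAt.comp (hx.prodMk hc)

theorem good_base : Good QM.base (kr (lin fun u => m6 (Lm6 u))) := by
  refine ⟨fun x hx => isAt_kr_lin (sm_of contDiff_Lm6 x) (det_Lm6_ne hx), ?_⟩
  intro Z _ z x c L hx hc hL _ _
  rw [pl_kr (tn_lin hx (cont_LmL hc hL)), pl_kr (tn_lin (QM.base.cont_act hx hc) hL)]
  refine kr_congr (.of_forall fun y => ?_)
  simp only [Function.comp, bun, lin, of_m6, QM.base, Matrix.mulVec_mulVec, ← Matrix.mul_assoc,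
    Lm6_mul]

variable {Q} {δ : Rw 6 V}

theorem exists_fill (hF : ∀ p < 8, SK.WFill (KK 6) p) [FiniteDimensional ℝ V]
    (hd : Module.finrank ℝ V ≤ 8) (h : Good Q δ) :
    ∃ B : Rw 6 V, (∀ u, IsAt id B u) ∧ ∀ u, 3 ≤ Q.nv u → B u = δ u := by
  classical
  have hns : Continuous Q.nv := Q.cd_nv.continuous
  have hK : IsCompact {u : V | 1 ≤ Q.nv u ∧ Q.nv u ≤ 4} := by
    have := FiniteDimensional.proper_real V
    refine Metric.isCompact_of_isClosed_isBounded
      ((isClosed_le continuous_const hns).inter (isClosed_le hns continuous_const)) ?_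
    refine (Metric.isBounded_closedBall (x := (0 : V)) (r := 2)).subset fun u hu => ?_
    rw [mem_closedBall_zero_iff]
    have h4 : Q.nv u ≤ 4 := hu.2
    nlinarith [Q.norm_le u, norm_nonneg u]
  have hD : dimH {u : V | 1 ≤ Q.nv u ∧ Q.nv u ≤ 4} < ((8 + 1 : ℕ) : ENNReal) := by
    refine lt_of_le_of_lt (dimH_mono (Set.subset_univ _)) ?_
    rw [Real.dimH_univ_eq_finrank]
    exact_mod_cast Nat.lt_succ_of_le hd
  obtain ⟨H, hH⟩ := conc_hor hF hK hD fun u hu => h.1 u (Q.ne (lt_of_lt_of_le one_pos hu.1))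
  have hH' : ∀ u : V, 1 ≤ Q.nv u → Q.nv u ≤ 4 → CcAt H hor δ u := fun u h1 h2 =>
    hH.self_of_nhdsSet u ⟨h1, h2⟩
  let m : V → V × ℝ := fun u => (u, Q.nv u - 2)
  have hm : ContDiff ℝ ∞ m := contDiff_id.prodMk (Q.cd_nv.sub contDiff_const)
  have hmc : ∀ u, ContinuousAt m u := fun u => hm.continuous.continuousAt
  have ha : ∀ u : V, 1 ≤ Q.nv u → Q.nv u ≤ 2 → pb m H u = hor u := by
    intro u h1 h2
    have e : H (m u) = pb Prod.fst (hor : Rw 6 V) (m u) :=
      (hH' u h1 (by linarith)).2.1 _ (by linarith)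
    rw [pb_congr e, pb_pb (hmc u)]
    exact pb_hor (continuousAt_fst.comp (hmc u))
  have hb : ∀ u : V, 3 ≤ Q.nv u → Q.nv u ≤ 4 → pb m H u = δ u := by
    intro u h1 h2
    have e : H (m u) = pb Prod.fst δ (m u) :=
      (hH' u (by linarith) h2).2.2 _ (by linarith)
    rw [pb_congr e, pb_pb (hmc u)]
    exact pb_id (F := δ) (x := u) (h.1 u (Q.ne (by linarith))).le_nb
  have hc : ∀ u : V, 1 ≤ Q.nv u → Q.nv u ≤ 4 → IsAt id (pb m H) u := fun u h1 h2 =>
    IsAt.pb (ι := id) (ι' := id) IsInducing.id continuous_id m (sm_of hm _)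
      (.of_forall fun _ => rfl) ((hH' u h1 h2).1 _)
  let B : Rw 6 V := fun u =>
    if Q.nv u < 3 / 2 then hor u else if Q.nv u < 7 / 2 then pb m H u else δ u
  have e1 : ∀ u : V, Q.nv u ≤ 2 → B u = hor u := by
    intro u hu
    by_cases h1 : Q.nv u < 3 / 2
    · simp only [B, if_pos h1]
    · have h2 : Q.nv u < 7 / 2 := by linarith
      simp only [B, if_neg h1, if_pos h2]
      exact ha u (by linarith) hu
  have e3 : ∀ u : V, 3 ≤ Q.nv u → B u = δ u := by
    intro u hu
    have h1 : ¬ Q.nv u < 3 / 2 := by linarith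
    by_cases h2 : Q.nv u < 7 / 2
    · simp only [B, if_neg h1, if_pos h2]
      exact hb u hu (by linarith)
    · simp only [B, if_neg h1, if_neg h2]
  have e2 : ∀ u : V, 1 ≤ Q.nv u → Q.nv u ≤ 4 → B u = pb m H u := by
    intro u h1 h4
    by_cases h2 : Q.nv u ≤ 2
    · rw [e1 u h2, ha u h1 h2]
    · by_cases h3 : 3 ≤ Q.nv u
      · rw [e3 u h3, hb u h3 h4]
      · have h5 : ¬ Q.nv u < 3 / 2 := by linarith
        have h6 : Q.nv u < 7 / 2 := by linarith
        simp only [B, if_neg h5, if_pos h6]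
  refine ⟨B, fun u => ?_, e3⟩
  by_cases h1 : Q.nv u < 2
  · refine (isAt_hor id u).congr ?_
    filter_upwards [(isOpen_lt hns continuous_const).mem_nhds h1] with x hx
    exact e1 x (le_of_lt hx)
  · by_cases h2 : Q.nv u < 4
    · refine (hc u (by linarith) h2.le).congr ?_
      have h3 : (1 : ℝ) < Q.nv u := by linarith
      filter_upwards [(isOpen_lt hns continuous_const).mem_nhds h2,
        (isOpen_lt continuous_const hns).mem_nhds h3] with x hx hx'
      exact e2 x (le_of_lt hx') (le_of_lt hx)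
    · have h3 : (3 : ℝ) < Q.nv u := by linarith
      refine (h.1 u (Q.ne (by linarith))).congr ?_
      filter_upwards [(isOpen_lt continuous_const hns).mem_nhds h3] with x hx
      exact e3 x (le_of_lt hx)

/-- the affine chart -/
def QM.ch (Q : QM V) (x : H4 × V) : V := Q.act x.2 (qi x.1)

theorem QM.sm_ch {x : H4 × V} (hx : x.1 ≠ 0) : Sm Q.ch x := by
  filter_upwards [(continuousAt_fst (p := x)).eventually (sm_qi hx)] with y hy
  exact Q.cd_act.contDiffAt.comp y (contDiffAt_snd.prodMk (hy.comp y contDiffAt_fst))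

open Classical in
/-- the structure with one more coordinate -/
def cn (Q : QM V) (B δ : Rw 6 V) : Rw 6 (H4 × V) := fun x =>
  if Q.nv x.2 < 4 * ns x.1 then pl Q.ch (lin fun y => m6 (Lm6 y.1)) B x else pb Prod.snd δ x

theorem sm_cont {W W' : Type} [NormedAddCommGroup W] [NormedSpace ℝ W]
    [NormedAddCommGroup W'] [NormedSpace ℝ W'] {f : W → W'} {w : W} (h : Sm f w) :
    ContinuousAt f w := (Filter.Eventually.self_of_nhds h).continuousAt

theorem cd_Lm1 : ContDiff ℝ ∞ fun y : H4 × V => m6 (Lm6 y.1) := contDiff_Lm6.comp contDiff_fst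

variable {B : Rw 6 V}

theorem cn_eq (h : Good Q δ) (hB' : ∀ u, 3 ≤ Q.nv u → B u = δ u) {x : H4 × V}
    (hx : 3 * ns x.1 < Q.nv x.2) : cn Q B δ x = pb Prod.snd δ x := by
  by_cases hc : Q.nv x.2 < 4 * ns x.1
  · have h1 : 0 < ns x.1 := by linarith
    have h0 : x.1 ≠ 0 := QM.base.ne h1
    have h3 : 3 ≤ Q.nv (Q.ch x) := by
      rw [QM.ch, Q.nv_act, ns_qi h0, ← div_eq_mul_inv, le_div_iff₀ h1]
      exact hx.le
    simp only [cn, if_pos hc]
    rw [pl_congr (hB' _ h3)]
    have e := h.2 (H4 × V) x Q.ch Prod.fst (fun _ => m6 1) (sm_cont (QM.sm_ch h0)) continuousAt_fst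
      continuousAt_const (Q.ne (by linarith)) h0
    simp only [of_m6, Matrix.mul_one] at e
    rw [e, pb]
    refine pl_congr_map ?_ (.of_forall fun y => ?_)
    · filter_upwards [(continuousAt_fst (p := x)).eventually_ne h0] with y hy
      rw [QM.ch, Q.act_act, qi_qm hy, Q.act_one]
    · simp only [lin, of_m6, Matrix.one_mulVec]
  · simp only [cn, if_neg hc]

theorem cn_far {x : H4 × V} (hx : x ≠ 0) (hc : ¬ Q.nv x.2 < 4 * ns x.1) :
    3 * ns x.1 < Q.nv x.2 := by
  have h1 : 0 < ns x.1 + Q.nv x.2 := Q.cone.pos hx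
  have h2 := ns_nonneg x.1
  rcases h2.eq_or_lt with h4 | h4
  · rw [← h4] at h1 ⊢
    linarith
  · linarith

theorem good_cn (h : Good Q δ) (hB : ∀ u, IsAt id B u) (hB' : ∀ u, 3 ≤ Q.nv u → B u = δ u) :
    Good Q.cone (cn Q B δ) := by
  have c1 : Continuous fun x : H4 × V => ns x.1 := contDiff_ns.continuous.comp continuous_fst
  have c2 : Continuous fun x : H4 × V => Q.nv x.2 := Q.cd_nv.continuous.comp continuous_snd
  constructor
  · intro x hx
    by_cases hc : Q.nv x.2 < 4 * ns x.1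
    · have h0 : x.1 ≠ 0 := QM.base.ne (by have := Q.nonneg x.2; change 0 < ns x.1; linarith)
      refine (IsAt.pl_lin (QM.sm_ch (Q := Q) h0) (sm_of cd_Lm1 x) (det_Lm6_ne h0) (hB _)).congr ?_
      filter_upwards [(isOpen_lt c2 (continuous_const.mul c1)).mem_nhds hc] with y hy
      have hy' : Q.nv y.2 < 4 * ns y.1 := hy
      simp only [cn, if_pos hy']
    · have h3 := cn_far hx hc
      have h2 : x.2 ≠ 0 := Q.ne (by have := ns_nonneg x.1; linarith)
      refine (IsAt.pb (ι := id) (ι' := id) IsInducing.id continuous_id Prod.snd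
        (sm_of contDiff_snd _) (.of_forall fun _ => rfl) (h.1 _ h2)).congr ?_
      filter_upwards [(isOpen_lt (continuous_const.mul c1) c2).mem_nhds h3] with y hy
      exact cn_eq h hB' hy
  · intro Z _ z x c L hx hc hL hx0 hc0
    have hp := ns_pos hc0
    have t1 := tn_lin hx (cont_LmL hc hL)
    have t2 := tn_lin (Q.cone.cont_act hx hc) hL
    have hiff : Q.nv (Q.cone.act (x z) (c z)).2 < 4 * ns (Q.cone.act (x z) (c z)).1 ↔
        Q.nv (x z).2 < 4 * ns (x z).1 := by
      change Q.nv (Q.act (x z).2 (c z)) < 4 * ns (qm (x z).1 (c z)) ↔ _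
      rw [Q.nv_act, ns_qm, ← mul_assoc]
      exact mul_lt_mul_iff_left₀ hp
    by_cases hb : Q.nv (x z).2 < 4 * ns (x z).1
    · have h0 : (x z).1 ≠ 0 :=
        QM.base.ne (by have := Q.nonneg (x z).2; change 0 < ns (x z).1; linarith)
      have e1 : cn Q B δ (x z) = pl Q.ch (lin fun y => m6 (Lm6 y.1)) B (x z) := by
        simp only [cn, if_pos hb]
      have e2 : cn Q B δ (Q.cone.act (x z) (c z)) =
          pl Q.ch (lin fun y => m6 (Lm6 y.1)) B (Q.cone.act (x z) (c z)) := by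
        simp only [cn, if_pos (hiff.2 hb)]
      rw [pl_congr e1, pl_pl t1, pl_congr (m := fun y => Q.cone.act (x y) (c y)) e2, pl_pl t2]
      refine pl_congr_map ?_ (.of_forall fun y => ?_)
      · filter_upwards [(continuousAt_fst.comp hx).eventually_ne h0, hc.eventually_ne hc0]
          with y hy hy'
        change Q.act (x y).2 (qi (x y).1) = Q.act (Q.act (x y).2 (c y)) (qi (qm (x y).1 (c y)))
        rw [Q.act_act, qi_mul (a := (x y).1) hy hy']
      · simp only [Function.comp, bun, lin, of_m6, QM.cone, Matrix.mulVec_mulVec,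
          ← Matrix.mul_assoc, Lm6_mul]
    · have h3 := cn_far hx0 hb
      have h2 : (x z).2 ≠ 0 := Q.ne (by have := ns_nonneg (x z).1; linarith)
      have e1 : cn Q B δ (x z) = pb Prod.snd δ (x z) := by simp only [cn, if_neg hb]
      have e2 : cn Q B δ (Q.cone.act (x z) (c z)) = pb Prod.snd δ (Q.cone.act (x z) (c z)) := by
        simp only [cn, if_neg (fun h => hb (hiff.1 h))]
      rw [pl_congr e1, pb, pl_pl t1, pl_congr (m := fun y => Q.cone.act (x y) (c y)) e2, pb,
        pl_pl t2]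
      exact h.2 Z z (Prod.snd ∘ x) c L (continuousAt_snd.comp hx) hc hL h2 hc0

/-- the quaternionic 3-space -/
abbrev V3 : Type := H4 × H4 × H4

theorem exists_good (hF : ∀ p < 8, SK.WFill (KK 6) p) :
    ∃ δ : Rw 6 V3, Good QM.base.cone.cone δ := by
  obtain ⟨B, b1, b2⟩ := exists_fill hF (by simp) good_base
  have g2 := good_cn good_base b1 b2
  obtain ⟨B', c1, c2⟩ := exists_fill hF (by simp) g2
  exact ⟨_, good_cn g2 c1 c2⟩

end

end Pool.Agent.P.MP_878f14_gt.S6
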