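import Pool.Agent.P.MP_878f14_gt.S6.Tri
import Pool.Agent.P.MP_878f14_gt.HT.Q.House

/-! The dimension counts. -/

namespace Pool.Agent.P.MP_878f14_gt.S6

open Pool.Agent.P.MP_878f14_gt.HT.Q Filter Topology Function Matrix
open scoped ContDiff

noncomputable section

theorem dim_gen {Y : Type} [NormedAddCommGroup Y] [NormedSpace ℝ Y] {Ψ : M5 → Y}
    (hΨ : ContDiff ℝ ∞ Ψ) (hi : ∀ u, ns u = 1 → ∀ k, Ψ (mm (Lm u * Matrix.of k)) = Ψ k) :
    dimH (Ψ '' {k | (Matrix.of k)ᵀ * Matrix.of k = (1 : Mx)}) < ((7 + 1 : ℕ) : ENNReal) := by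
  refine House_dim (fun s x => Ψ (mm (refl ![1, x 0, 0, 0, 0] * refl ![0, 1, x 1, x 2, x 3] *
    refl ![0, 0, 1, x 4, x 5] * refl ![0, 0, 0, 1, x 6] *
    diagonal (fun i => if s i then (1 : ℝ) else -1)))) (fun s => ?_) ?_
  · refine hΨ.comp (House_cd_mul (House_cd_mul (House_cd_mul (House_cd_mul
      (House_cd_refl (fun j => ?_) 0 fun _ => rfl) (House_cd_refl (fun j => ?_) 1 fun _ => rfl))
      (House_cd_refl (fun j => ?_) 2 fun _ => rfl)) (House_cd_refl (fun j => ?_) 3 fun _ => rfl))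
      contDiff_const)
    all_goals fin_cases j <;> simp <;> fun_prop
  · rintro _ ⟨g, hg, rfl⟩
    obtain ⟨h, hh, r, hr⟩ : ∃ h : H4, ns h = 1 ∧ ∃ r : ℝ, qm (zc 0 g) (qc h) = r • q1 := by
      by_cases hz : zc 0 g = 0
      · exact ⟨q1, by simp [ns, q1], 0, by rw [hz, zero_qm, zero_smul]⟩
      · have hp := ns_pos hz
        refine ⟨(√(ns (zc 0 g)))⁻¹ • zc 0 g, ?_, (√(ns (zc 0 g)))⁻¹ * ns (zc 0 g), ?_⟩
        · rw [ns_smul, inv_pow, Real.sq_sqrt hp.le, inv_mul_cancel₀ hp.ne']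
        · have : qc ((√(ns (zc 0 g)))⁻¹ • zc 0 g) = (√(ns (zc 0 g)))⁻¹ • qc (zc 0 g) := by
            ext j; fin_cases j <;> simp [qc]
          rw [this, qm_smul, qm_qc, smul_smul]
    have ho : (Lm h * Matrix.of g)ᵀ * (Lm h * Matrix.of g) = (1 : Mx) := by
      rw [transpose_mul, mul_assoc, ← mul_assoc (Lm h)ᵀ, Lm_transpose, Lm_mul, qc_qm, hh, one_smul,
        Lm_q1, one_mul, hg]
    obtain ⟨a, b, c, e, s, h1, h2⟩ := householder ho
    have hz := (zc_Lm 0 h g).trans hr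
    have a1 : a 1 = 0 := h2 1 (by simpa [zc, qc, q1, mm] using congrFun hz 1)
    have a2 : a 2 = 0 := h2 2 (by simpa [zc, qc, q1, mm] using congrFun hz 2)
    have a3 : a 3 = 0 := h2 3 (by simpa [zc, qc, q1, mm] using congrFun hz 3)
    refine ⟨s, ![a 0, b 0, b 1, b 2, c 0, c 1, e], ?_⟩
    rw [← hi h hh g, h1, a1, a2, a3]
    rfl

/-- the stabiliser of the first basis vector -/
def emb (k : M5) : My := Matrix.of (vecCons (vecCons 1 0) fun i => vecCons 0 (k i))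

theorem emb_mul (A B : M5) : emb (mm (Matrix.of A * Matrix.of B)) = emb A * emb B := by
  ext i j
  rw [mul_apply, Fin.sum_univ_succ]
  refine Fin.cases ?_ (fun i => ?_) i <;> refine Fin.cases ?_ (fun j => ?_) j <;>
    simp [emb, mm, mul_apply]

theorem emb_Lm (u : H4) : emb (mm (Lm u)) = Lm6 u := by
  ext i j
  fin_cases i <;> fin_cases j <;> simp [emb, Lm, L0, E0, Lm6, L6, E6]

def Ps (k : M5) : Amb := AA (emb k) (x0 (k 0 1) (zc 0 k) (zc 1 k))

theorem cd_Ps : ContDiff ℝ ∞ Ps := by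
  have e : ContDiff ℝ ∞ fun k => m6 (emb k) := by
    refine contDiff_pi.2 fun i => contDiff_pi.2 fun j => ?_
    refine Fin.cases ?_ (fun i => ?_) i <;> refine Fin.cases ?_ (fun j => ?_) j <;>
      simp only [m6, emb, of_apply, cons_val_zero, cons_val_succ] <;> fun_prop
  have x : ∀ i, ContDiff ℝ ∞ fun k : M5 => x0 (k 0 1) (zc 0 k) (zc 1 k) i := fun i => by
    fin_cases i
    exacts [contDiff_const, (by fun_prop : ContDiff ℝ ∞ fun k : M5 => k 0 1).smul (contDiff_zc 0),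
      contDiff_zc 1]
  exact contDiff_pi.2 fun i => contDiff_mul6.comp ((contDiff_Lm6.comp (x i)).prodMk e)

theorem Ps_inv (u : H4) (hu : ns u = 1) (k : M5) : Ps (mm (Lm u * Matrix.of k)) = Ps k := by
  have e : emb (mm (Lm u * Matrix.of k)) = Lm6 u * emb k := by
    rw [← emb_Lm, ← emb_mul, of_mm]
  have c : mm (Lm u * Matrix.of k) 0 1 = k 0 1 := by
    simp [mm, Lm, L0, E0, Matrix.mul_apply, Fin.sum_univ_succ]
  have z : ∀ a, qm (qm a (qc u)) u = a := fun a => by rw [qm_assoc, qc_qm, hu, one_smul, qm_q1]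
  funext i
  simp only [Ps, AA, e, c, zc_Lm, ← Matrix.mul_assoc, Lm6_mul]
  fin_cases i <;> simp [x0, zero_qm, smul_qm, z]

theorem rm_N0 {g : M6} (hg : g ∈ SO 6) :
    rm (N0 g) g ∈ Ps '' {k | (Matrix.of k)ᵀ * Matrix.of k = (1 : Mx)} := by
  obtain ⟨F, p, q, z, hF, f0, f1, -, e0, -⟩ := exists_data hg
  obtain ⟨h, hh⟩ : ∃ h, h = F * Matrix.of g := ⟨_, rfl⟩
  have o : hᵀ * h = 1 := by
    rw [hh, transpose_mul, mul_assoc, ← mul_assoc Fᵀ, mul_eq_one_comm.1 hF, one_mul, orth hg]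
  have c : ∀ k i, (F *ᵥ cl k g) i = h i k := fun k i => by
    rw [hh]
    rfl
  have c0 : ∀ i, h i 0 = (1 : My) i 0 := fun i => by
    rw [← c, ← f0, ← hF]
    rfl
  have r0 : ∀ j, h 0 j = (1 : My) 0 j := fun j => by
    rw [← c, ← cl_dot hg, ← f0]
    rfl
  have e : emb (fun i j => h i.succ j.succ) = h := by
    ext i j
    refine Fin.cases ?_ (fun i => ?_) i <;> refine Fin.cases ?_ (fun j => ?_) j <;>
      simp [emb, c0, r0, one_apply, (Fin.succ_ne_zero _).symm]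
  refine ⟨fun i j => h i.succ j.succ, ?_, ?_⟩
  · ext i j
    have := congrFun (congrFun o i.succ) j.succ
    rw [mul_apply, Fin.sum_univ_succ, transpose_apply, r0, one_apply_ne (Fin.succ_ne_zero i).symm,
      zero_mul, zero_add] at this
    refine this.trans ?_
    simp [one_apply]
  · have c2 : cc 2 g = h 1 2 := by
      rw [← c, cc, ← f1, dotProduct_comm]
      rfl
    have z1 : co F (cl 1 g) = zc 0 fun i j => h i.succ j.succ := by
      simp only [co, c, zc]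
      congr 1
      ext a
      fin_cases a <;> rfl
    have z2 : co F (cl 2 g) = zc 1 fun i j => h i.succ j.succ := by
      simp only [co, c, zc]
      congr 1
      ext a
      fin_cases a <;> rfl
    rw [Ps, e, e0, c2, z1, z2]
    funext i
    simp only [AA, rm, of_m6, Matrix.mul_assoc, ← hh]
    rfl

theorem dimA : dimH ((fun g => rm (N0 g) g) '' SO 6) < ((8 + 1 : ℕ) : ENNReal) := by
  refine lt_of_le_of_lt (dimH_mono ?_) ((dim_gen cd_Ps Ps_inv).trans (by exact_mod_cast by decide))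
  rintro _ ⟨g, hg, rfl⟩
  exact rm_N0 hg

theorem dimB : dimH ((fun g => N3 (cl 0 g)) '' SO 6) < ((8 + 1 : ℕ) : ENNReal) := by
  refine lt_of_le_of_lt (dimH_mono (t := Set.range N3) ?_)
    (lt_of_le_of_lt (cd_N3.of_le (by simp)).dimH_range_le ?_)
  · rintro _ ⟨g, -, rfl⟩
    exact ⟨_, rfl⟩
  · rw [Module.finrank_fin_fun]
    exact_mod_cast by decide

end

end Pool.Agent.P.MP_878f14_gt.S6
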