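import Pool.Agent.P.MP_878f14_gt.S6.Cone
import Pool.Agent.P.MP_878f14_gt.S6.CS

/-! The structure on the bundle associated with the quaternionic projective plane. -/

namespace Pool.Agent.P.MP_878f14_gt.S6

open Pool.Agent.P.MP_878f14_gt.HT.Q Filter Topology Function Matrix
open scoped ContDiff

noncomputable section

/-- triples of matrices -/
abbrev Amb : Type := Fin 3 → M6

def toV (x : Fin 3 → H4) : V3 := (x 0, x 1, x 2)

/-- the total space -/
def X0 : Set Amb := {N | ∃ (x : Fin 3 → H4) (F : My), x ≠ 0 ∧ F * Fᵀ = 1 ∧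
  ∀ i, Matrix.of (N i) = Lm6 (x i) * F}

def hN (N : Amb) (j i : Fin 3) : H4 := hh (Matrix.of (N j)) (Matrix.of (N i))

def rt (i j : Fin 3) (N : Amb) : H4 := (hN N i i 0)⁻¹ • hN N j i

def mi (i : Fin 3) (N : Amb) : V3 := toV fun j => rt i j N

def Di (δ : Rw 6 V3) (i : Fin 3) : Rw 6 Amb := pl (mi i) (lin fun N => N i) δ

open Classical in
def ix (N : Amb) : Fin 3 := if hN N 0 0 0 ≠ 0 then 0 else if hN N 1 1 0 ≠ 0 then 1 else 2

def Dl (δ : Rw 6 V3) : Rw 6 Amb := fun N => Di δ (ix N) N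

theorem cd_hN (j i : Fin 3) : ContDiff ℝ ∞ fun N => hN N j i :=
  contDiff_hh.comp ((contDiff_apply ℝ M6 j).prodMk (contDiff_apply ℝ M6 i))

theorem cd_hN0 (i : Fin 3) : ContDiff ℝ ∞ fun N => hN N i i 0 :=
  (contDiff_apply ℝ ℝ 0).comp (cd_hN i i)

theorem sm_rt {i : Fin 3} {N : Amb} (h : hN N i i 0 ≠ 0) (j : Fin 3) : Sm (rt i j) N := by
  filter_upwards [(cd_hN0 i).continuous.continuousAt.eventually_ne h] with x hx
  exact ((cd_hN0 i).contDiffAt.inv hx).smul (cd_hN j i).contDiffAt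

theorem sm_mi {i : Fin 3} {N : Amb} (h : hN N i i 0 ≠ 0) : Sm (mi i) N := by
  filter_upwards [sm_rt h 0, sm_rt h 1, sm_rt h 2] with x a b c
  exact a.prodMk (b.prodMk c)

section

variable {N : Amb} {x : Fin 3 → H4} {F : My} (hF : F * Fᵀ = 1)
  (hx : ∀ i, Matrix.of (N i) = Lm6 (x i) * F)
include hF hx

theorem hN_eq (j i : Fin 3) : hN N j i = qm (x j) (qc (x i)) := by
  rw [hN, hx, hx, hh_mul _ _ hF, hh_Lm6]

theorem hN0_eq (i : Fin 3) : hN N i i 0 = ns (x i) := by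
  rw [hN_eq hF hx, qm_qc]
  simp [q1]

theorem rt_eq (i j : Fin 3) : rt i j N = qm (x j) (qi (x i)) := by
  rw [rt, hN0_eq hF hx, hN_eq hF hx, qi, qm_smul]

end

theorem ix_ne {N : Amb} (h : N ∈ X0) : hN N (ix N) (ix N) 0 ≠ 0 := by
  obtain ⟨x, F, h0, hF, hx⟩ := h
  unfold ix
  split_ifs with a b
  · exact a
  · exact b
  · intro c
    rw [not_not, hN0_eq hF hx, ns_eq_zero] at a b
    rw [hN0_eq hF hx, ns_eq_zero] at c
    refine h0 (funext fun i => ?_)
    fin_cases i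
    exacts [a, b, c]

theorem toV_ne {x : Fin 3 → H4} {i : Fin 3} (h : x i ≠ 0) : toV x ≠ 0 := fun e => by
  simp only [toV, Prod.mk_eq_zero] at e
  fin_cases i
  exacts [h e.1, h e.2.1, h e.2.2]

theorem rt_ne {N : Amb} (h : N ∈ X0) {i k : Fin 3} (hi : hN N i i 0 ≠ 0) (hk : hN N k k 0 ≠ 0) :
    rt i k N ≠ 0 := by
  obtain ⟨x, F, -, hF, hx⟩ := h
  rw [hN0_eq hF hx, ne_eq, ns_eq_zero] at hi hk
  rw [rt_eq hF hx]
  exact qm_ne hk (qi_ne hi)

theorem det_ne {N : Amb} (h : N ∈ X0) {i : Fin 3} (hi : hN N i i 0 ≠ 0) :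
    (Matrix.of (N i)).det ≠ 0 := by
  obtain ⟨x, F, -, hF, hx⟩ := h
  rw [hN0_eq hF hx, ne_eq, ns_eq_zero] at hi
  rw [hx, det_mul]
  refine mul_ne_zero (det_Lm6_ne hi) fun e => ?_
  have := congrArg Matrix.det hF
  rw [det_mul, e, zero_mul, det_one] at this
  exact zero_ne_one this

variable {δ : Rw 6 V3}

theorem Di_compat (h : Good QM.base.cone.cone δ) {t : X0} {i k : Fin 3} (hi : hN t.1 i i 0 ≠ 0)
    (hk : hN t.1 k k 0 ≠ 0) : pb Subtype.val (Di δ k) t = pb Subtype.val (Di δ i) t := by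
  have cv : ContinuousAt (Subtype.val : X0 → Amb) t := continuous_subtype_val.continuousAt
  have e : ∀ l, pb Subtype.val (Di δ l) t =
      pl (mi l ∘ Subtype.val) (lin fun s : X0 => s.1 l) δ t := fun l => pl_pl (tn_snd cv) _ _ _
  have ev : ∀ᶠ s : X0 in 𝓝 t, hN s.1 i i 0 ≠ 0 ∧ hN s.1 k k 0 ≠ 0 :=
    (((cd_hN0 i).continuous.continuousAt.comp cv).eventually_ne hi).and
      (((cd_hN0 k).continuous.continuousAt.comp cv).eventually_ne hk)
  have q := h.2 X0 t (mi k ∘ Subtype.val) (rt i k ∘ Subtype.val) (fun s => s.1 i)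
    ((sm_cont (sm_mi hk)).comp cv) ((sm_cont (sm_rt hi k)).comp cv)
    ((continuous_apply i).continuousAt.comp cv)
    (toV_ne (x := fun j => rt k j t.1) (i := k) (rt_ne t.2 hk hk))
    (rt_ne t.2 hi hk)
  rw [e, e]
  refine (pl_congr_map .rfl ?_).trans (q.trans (pl_congr_map ?_ .rfl))
  · filter_upwards [(continuous_fst.tendsto (t, (0 : E 6))).eventually ev] with y hy
    obtain ⟨x, F, -, hF, hx⟩ := y.1.2
    have a := hy.1
    rw [hN0_eq hF hx, ne_eq, ns_eq_zero] at a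
    simp only [lin, Function.comp, of_m6]
    rw [rt_eq hF hx, hx, hx, ← Matrix.mul_assoc, Lm6_mul, qm_assoc, qi_qm a, qm_q1]
  · filter_upwards [ev] with y hy
    obtain ⟨x, F, -, hF, hx⟩ := y.2
    have a := hy.2
    rw [hN0_eq hF hx, ne_eq, ns_eq_zero] at a
    have b : ∀ j, qm (rt k j y.1) (rt i k y.1) = rt i j y.1 := fun j => by
      rw [rt_eq hF hx, rt_eq hF hx, rt_eq hF hx, qm_assoc, ← qm_assoc (qi _), qi_qm a, q1_qm]
    exact Prod.ext (b 0) (Prod.ext (b 1) (b 2))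

theorem goodOn_Dl (h : Good QM.base.cone.cone δ) : GoodOn (Dl δ) X0 := by
  intro t
  have hi := ix_ne t.2
  have cv : ContinuousAt (Subtype.val : X0 → Amb) t := continuous_subtype_val.continuousAt
  have a : IsAt id (Di δ (ix t.1)) t.1 :=
    IsAt.pl_lin (sm_mi hi) (sm_of (contDiff_apply ℝ M6 _) _) (det_ne t.2 hi)
      (h.1 _ (toV_ne (i := ix t.1) (rt_ne t.2 hi hi)))
  refine (IsAt.pb (ι := id) (m := Subtype.val) (t := t) IsInducing.id continuous_subtype_val id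
    (sm_of contDiff_id _) (.of_forall fun _ => rfl) a).congr ?_
  filter_upwards [((cd_hN0 (ix t.1)).continuous.continuousAt.comp cv).eventually_ne hi] with s hs
  exact (pb_congr (F := Dl δ) (G := Di δ (ix s.1)) rfl).trans (Di_compat h hs (ix_ne s.2))

/-- right multiplication -/
def rm (N : Amb) (g : M6) : Amb := fun i => m6 (Matrix.of (N i) * Matrix.of g)

/-- transposition -/
def tr (g : M6) : M6 := fun i j => g j i

theorem cd_tr : ContDiff ℝ ∞ tr :=
  contDiff_pi.2 fun i => contDiff_pi.2 fun j => by simp only [tr]; fun_prop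

theorem cd_rm : ContDiff ℝ ∞ fun p : Amb × M6 => rm p.1 p.2 :=
  contDiff_pi.2 fun i => contDiff_mul6.comp
    (((contDiff_apply ℝ M6 i).comp contDiff_fst).prodMk contDiff_snd)

theorem hN_rm (N : Amb) {g : M6} (hg : Matrix.of g * (Matrix.of g)ᵀ = (1 : My)) (j i : Fin 3) :
    hN (rm N g) j i = hN N j i := hh_mul _ _ hg

theorem Dl_rm {Z : Type} [TopologicalSpace Z] {N : Z → Amb} {g : Z → M6} (hN' : Continuous N)
    (hg : Continuous g) (ho : ∀ z, Matrix.of (g z) * (Matrix.of (g z))ᵀ = (1 : My)) (z : Z) :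
    pl (fun z => rm (N z) (g z)) (lin (tr ∘ g)) (Dl δ) z = pb N (Dl δ) z := by
  have e : ix (rm (N z) (g z)) = ix (N z) := by simp only [ix, hN_rm _ (ho z)]
  have c1 : Continuous fun z => rm (N z) (g z) := cd_rm.continuous.comp (hN'.prodMk hg)
  have e1 : Dl δ (rm (N z) (g z)) = Di δ (ix (N z)) (rm (N z) (g z)) := by rw [Dl, e]
  rw [pl_congr (m := fun z => rm (N z) (g z)) e1, pb_congr (F := Dl δ) (G := Di δ (ix (N z))) rfl,
    Di, pb, pl_pl (tn_lin c1.continuousAt (cd_tr.continuous.comp hg).continuousAt),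
    pl_pl (tn_snd hN'.continuousAt)]
  refine pl_congr_map (.of_forall fun y => ?_) (.of_forall fun y => ?_)
  · simp only [Function.comp, mi, rt, hN_rm _ (ho y)]
  · have : Matrix.of (tr (g y.1)) = (Matrix.of (g y.1))ᵀ := rfl
    simp only [Function.comp, bun, lin, rm, of_m6, Matrix.mulVec_mulVec, this, Matrix.mul_assoc,
      ho, Matrix.mul_one]

end

end Pool.Agent.P.MP_878f14_gt.S6
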