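import Pool.Agent.P.MP_878f14_gt.S6.Mat

/-! The quaternionic line orthogonal to a complex line in the complex 3-space. -/

namespace Pool.Agent.P.MP_878f14_gt.S6

open Pool.Agent.P.MP_878f14_gt.HT.Q Filter Topology Function Matrix
open scoped ContDiff

noncomputable section

abbrev R6 : Type := Fin 6 → ℝ

/-- the complex structure -/
def Jv (y : R6) : R6 := ![-y 1, y 0, -y 3, y 2, -y 5, y 4]

/-- the conjugate of the complex cross product -/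
def jj (v w : R6) : R6 :=
  ![v 2 * w 4 - v 3 * w 5 - (v 4 * w 2 - v 5 * w 3), -(v 2 * w 5 + v 3 * w 4 - (v 4 * w 3 + v 5 * w 2)),
    v 4 * w 0 - v 5 * w 1 - (v 0 * w 4 - v 1 * w 5), -(v 4 * w 1 + v 5 * w 0 - (v 0 * w 5 + v 1 * w 4)),
    v 0 * w 2 - v 1 * w 3 - (v 2 * w 0 - v 3 * w 1), -(v 0 * w 3 + v 1 * w 2 - (v 2 * w 1 + v 3 * w 0))]

/-- the rows of the frame -/
def rows (v w : R6) : Fin 6 → R6 := ![v, Jv v, w, -Jv w, -jj v w, -Jv (jj v w)]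

/-- the frame -/
def fr (v w : R6) : My := Matrix.of (rows v w)

/-- the projection -/
def pr (v y : R6) : R6 := y - (y ⬝ᵥ v) • v - (y ⬝ᵥ Jv v) • Jv v

def br (v w w' : R6) : H4 := ![w ⬝ᵥ w', w ⬝ᵥ Jv w', w ⬝ᵥ jj v w', w ⬝ᵥ Jv (jj v w')]

/-- coordinates in a frame -/
def co (F : My) (y : R6) : H4 := qc ![(F *ᵥ y) 2, (F *ᵥ y) 3, (F *ᵥ y) 4, (F *ᵥ y) 5]

variable (v w w' x y : R6)

theorem dJJ : Jv x ⬝ᵥ Jv y = x ⬝ᵥ y := by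
  simp [dotProduct, Fin.sum_univ_six, Jv]
  ring

theorem dJ : Jv x ⬝ᵥ y = -(x ⬝ᵥ Jv y) := by
  simp [dotProduct, Fin.sum_univ_six, Jv]
  ring

theorem dJ0 : x ⬝ᵥ Jv x = 0 := by
  simp [dotProduct, Fin.sum_univ_six, Jv]
  ring

theorem d_vj : v ⬝ᵥ jj v w = 0 := by
  simp [dotProduct, Fin.sum_univ_six, jj]
  ring

theorem d_vJj : v ⬝ᵥ Jv (jj v w) = 0 := by
  simp [dotProduct, Fin.sum_univ_six, jj, Jv]
  ring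

theorem d_jw : jj v w ⬝ᵥ w' = -(w ⬝ᵥ jj v w') := by
  simp [dotProduct, Fin.sum_univ_six, jj]
  ring

theorem d_jJw : jj v w ⬝ᵥ Jv w' = w ⬝ᵥ Jv (jj v w') := by
  simp [dotProduct, Fin.sum_univ_six, jj, Jv]
  ring

theorem d_jj : jj v w ⬝ᵥ jj v w' =
    (v ⬝ᵥ v) * (w ⬝ᵥ w') - (w ⬝ᵥ v) * (w' ⬝ᵥ v) - (w ⬝ᵥ Jv v) * (w' ⬝ᵥ Jv v) := by
  simp [dotProduct, Fin.sum_univ_six, jj, Jv]
  ring

theorem d_jJj : jj v w ⬝ᵥ Jv (jj v w') =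
    -((v ⬝ᵥ v) * (w ⬝ᵥ Jv w')) - (w ⬝ᵥ v) * (w' ⬝ᵥ Jv v) + (w ⬝ᵥ Jv v) * (w' ⬝ᵥ v) := by
  simp [dotProduct, Fin.sum_univ_six, jj, Jv]
  ring

theorem d_wj : w ⬝ᵥ jj v w = 0 := by
  have := d_jw v w w
  rw [dotProduct_comm] at this
  linarith

theorem d_wJj : w ⬝ᵥ Jv (jj v w) = 0 := by
  simp [dotProduct, Fin.sum_univ_six, jj, Jv]
  ring

variable {v w w'}

theorem fr_mul (hv : v ⬝ᵥ v = 1) (a1 : w ⬝ᵥ v = 0) (a2 : w ⬝ᵥ Jv v = 0) (b1 : w' ⬝ᵥ v = 0)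
    (b2 : w' ⬝ᵥ Jv v = 0) : fr v w * (fr v w')ᵀ = Lm6 (br v w w') := by
  have e : ∀ i j, (fr v w * (fr v w')ᵀ) i j = rows v w i ⬝ᵥ rows v w' j := fun _ _ => rfl
  have c1 : v ⬝ᵥ w' = 0 := by rw [dotProduct_comm, b1]
  have c2 : v ⬝ᵥ Jv w' = 0 := by rw [dotProduct_comm, dJ, b2, neg_zero]
  have c3 : jj v w ⬝ᵥ v = 0 := by rw [dotProduct_comm, d_vj]
  have c4 : jj v w ⬝ᵥ Jv v = 0 := by rw [dotProduct_comm, dJ, d_vJj, neg_zero]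
  have c5 := d_jj v w w'
  have c6 := d_jJj v w w'
  rw [hv, a1, a2] at c5 c6
  have c7 : ∀ x y, Jv x ⬝ᵥ jj v y = -(x ⬝ᵥ Jv (jj v y)) := fun x y => dJ _ _
  have c8 : ∀ x, Jv x ⬝ᵥ v = -(x ⬝ᵥ Jv v) := fun x => dJ _ _
  have c9 : ∀ x, Jv x ⬝ᵥ w' = -(x ⬝ᵥ Jv w') := fun x => dJ _ _
  ext i j
  rw [e]
  fin_cases i <;> fin_cases j <;>
    simp [rows, Lm6, L6, E6, br, hv, a1, a2, c1, c2, c3, c4, c5, c6, c7, c8, c9, dJJ, dJ0, d_vj, d_vJj,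
      d_jJw, d_jw v w w']

theorem pr_v (hv : v ⬝ᵥ v = 1) : pr v y ⬝ᵥ v = 0 := by
  simp [pr, hv, dJ, dJ0]

theorem pr_Jv (hv : v ⬝ᵥ v = 1) : pr v y ⬝ᵥ Jv v = 0 := by
  simp [pr, hv, dJJ, dJ0]

theorem pr_dot {u : R6} (h1 : v ⬝ᵥ u = 0) (h2 : Jv v ⬝ᵥ u = 0) : pr v y ⬝ᵥ u = y ⬝ᵥ u := by
  simp [pr, h1, h2]

theorem exists_unit (hv : v ⬝ᵥ v = 1) : ∃ w : R6, w ⬝ᵥ w = 1 ∧ w ⬝ᵥ v = 0 ∧ w ⬝ᵥ Jv v = 0 := by
  obtain ⟨u, h0, h1, h2⟩ : ∃ u : R6, u ≠ 0 ∧ u ⬝ᵥ v = 0 ∧ u ⬝ᵥ Jv v = 0 := by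
    by_cases h : jj v ![1, 0, 0, 0, 0, 0] = 0
    · refine ⟨jj v ![0, 0, 1, 0, 0, 0], fun h' => ?_, ?_, ?_⟩
      · have a2 := congrFun h 2
        have a3 := congrFun h 3
        have a4 := congrFun h 4
        have a5 := congrFun h 5
        have b4 := congrFun h' 4
        have b5 := congrFun h' 5
        simp [jj] at a2 a3 a4 a5 b4 b5
        simp [dotProduct, Fin.sum_univ_six, a2, a3, a4, a5, b4, b5] at hv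
      · rw [dotProduct_comm, d_vj]
      · rw [dotProduct_comm, dJ, d_vJj, neg_zero]
    · exact ⟨_, h, by rw [dotProduct_comm, d_vj], by rw [dotProduct_comm, dJ, d_vJj, neg_zero]⟩
  have hp : 0 < u ⬝ᵥ u := lt_of_le_of_ne (Finset.sum_nonneg fun i _ => mul_self_nonneg _)
    fun e => h0 (dotProduct_self_eq_zero.1 e.symm)
  refine ⟨(√(u ⬝ᵥ u))⁻¹ • u, ?_, by simp [h1], by simp [h2]⟩
  rw [smul_dotProduct, dotProduct_smul, smul_eq_mul, smul_eq_mul, ← mul_assoc, ← mul_inv,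
    Real.mul_self_sqrt hp.le, inv_mul_cancel₀ hp.ne']

/-- the standard complex basis -/
def ee (k : Fin 3) : R6 := ![![1, 0, 0, 0, 0, 0], ![0, 0, 1, 0, 0, 0], ![0, 0, 0, 0, 1, 0]] k

/-- the relations between the coordinates of the three basis vectors -/
def Rel3 (y₁ y₂ z : H4) : Prop :=
  y₁ 0 ^ 2 + y₁ 1 ^ 2 + (y₂ 0 ^ 2 + y₂ 1 ^ 2) + (z 0 ^ 2 + z 1 ^ 2) = 1 ∧
  y₁ 2 ^ 2 + y₁ 3 ^ 2 + (y₂ 2 ^ 2 + y₂ 3 ^ 2) + (z 2 ^ 2 + z 3 ^ 2) = 1 ∧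
  y₁ 0 * y₁ 2 + y₁ 1 * y₁ 3 + (y₂ 0 * y₂ 2 + y₂ 1 * y₂ 3) + (z 0 * z 2 + z 1 * z 3) = 0 ∧
  y₁ 0 * y₁ 3 - y₁ 1 * y₁ 2 + (y₂ 0 * y₂ 3 - y₂ 1 * y₂ 2) + (z 0 * z 3 - z 1 * z 2) = 0

theorem exists_frame (hv : v ⬝ᵥ v = 1) : ∃ F : My, F * Fᵀ = 1 ∧ F 0 = v ∧ F 1 = Jv v ∧
    (∀ y, fr v (pr v y) = Lm6 (co F y) * F) ∧ Rel3 (co F (ee 0)) (co F (ee 1)) (co F (ee 2)) := by
  obtain ⟨w, h0, h1, h2⟩ := exists_unit hv
  have hF : fr v w * (fr v w)ᵀ = 1 := by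
    rw [fr_mul hv h1 h2 h1 h2, ← Lm6_q1]
    congr 1
    simp only [br, h0, dJ0, d_wj, d_wJj, q1]
  have hc : ∀ y, co (fr v w) y = ![y ⬝ᵥ w, y ⬝ᵥ Jv w, y ⬝ᵥ jj v w, y ⬝ᵥ Jv (jj v w)] := fun y => by
    have e : ∀ i, (fr v w *ᵥ y) i = y ⬝ᵥ rows v w i := fun i => dotProduct_comm _ _
    simp [co, qc, e, rows]
  refine ⟨fr v w, hF, rfl, rfl, fun y => ?_, ?_⟩
  · have e := fr_mul hv (pr_v y hv) (pr_Jv y hv) h1 h2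
    have c1 : v ⬝ᵥ w = 0 := by rw [dotProduct_comm, h1]
    have c2 : Jv v ⬝ᵥ w = 0 := by rw [dotProduct_comm, h2]
    have e2 : br v (pr v y) w = co (fr v w) y := by
      rw [hc, br, pr_dot y c1 c2, pr_dot y (by rw [← neg_eq_zero, ← dJ, c2]) (by rw [dJJ, c1]),
        pr_dot y (d_vj v w) (by rw [dJ, d_vJj, neg_zero]),
        pr_dot y (d_vJj v w) (by rw [dJJ, d_vj])]
    rw [← e2, ← e, Matrix.mul_assoc, mul_eq_one_comm.1 hF, Matrix.mul_one]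
  · have n1 := d_jj v w w
    rw [hv, h0, h1, h2] at n1
    have n2 := d_wj v w
    have n3 := d_wJj v w
    simp only [hc]
    generalize jj v w = n at n1 n2 n3
    simp [dotProduct, Fin.sum_univ_six, Jv] at h0 n1 n2 n3
    simp [Rel3, ee, dotProduct, Fin.sum_univ_six, Jv]
    refine ⟨?_, ?_, ?_, ?_⟩ <;> linarith

theorem cd_frpr : ContDiff ℝ ∞ fun p : R6 × R6 => m6 (fr p.1 (pr p.1 p.2)) := by
  have h1 : ContDiff ℝ ∞ Jv := contDiff_pi.2 fun i => by fin_cases i <;> simp [Jv] <;> fun_prop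
  have h2 : ContDiff ℝ ∞ fun p : R6 × R6 => jj p.1 p.2 :=
    contDiff_pi.2 fun i => by fin_cases i <;> simp [jj] <;> fun_prop
  have h0 : ContDiff ℝ ∞ fun p : R6 × R6 => p.1 ⬝ᵥ p.2 := by
    simp only [dotProduct]
    fun_prop
  have h3 : ContDiff ℝ ∞ fun p : R6 × R6 => pr p.1 p.2 :=
    (contDiff_snd.sub ((h0.comp (contDiff_snd.prodMk contDiff_fst)).smul contDiff_fst)).sub
      ((h0.comp (contDiff_snd.prodMk (h1.comp contDiff_fst))).smul (h1.comp contDiff_fst))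
  have h4 := h2.comp (contDiff_fst.prodMk h3)
  refine contDiff_pi.2 fun i => ?_
  fin_cases i
  exacts [contDiff_fst, h1.comp contDiff_fst, h3, (h1.comp h3).neg, h4.neg, (h1.comp h4).neg]

end

end Pool.Agent.P.MP_878f14_gt.S6
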