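import Pool.Agent.P.MP_878f14_gt.S6.CS
import Pool.Agent.P.MP_878f14_gt.HT.Q.House

/-! The suspension of the action of the rotation group in dimensions at most four. -/

namespace Pool.Agent.P.MP_878f14_gt.S6

open Pool.Agent.P.MP_878f14_gt.HT.Q Filter Topology Function Matrix
open scoped ContDiff

noncomputable section

variable {q : ℕ}

theorem low_orth {g : Fin q → Fin q → ℝ} (hg : g ∈ SO q) :
    (Matrix.of g)ᵀ * Matrix.of g = (1 : Matrix (Fin q) (Fin q) ℝ) :=
  (Matrix.mem_orthogonalGroup_iff' _ _).1 (Matrix.mem_specialOrthogonalGroup_iff.1 hg).1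

theorem low_toR : toR (susp q) = kr (lin fun (g : SO q) i j => g.1 j i) := by
  funext t
  have e : toR (susp q) t = rel {ab : (SO q × E q) × (SO q × E q) | ∃ v,
      ab.1.2 = (Matrix.of ab.1.1.1).mulVec v ∧ ab.2.2 = (Matrix.of ab.2.1.1).mulVec v} t := rfl
  rw [e, kr]
  refine rel_eq_iff.2 (.of_forall fun ab => ?_)
  change (∃ v, _) ↔ (Matrix.of ab.1.1.1)ᵀ.mulVec ab.1.2 = (Matrix.of ab.2.1.1)ᵀ.mulVec ab.2.2
  constructor
  · rintro ⟨v, a, b⟩
    rw [a, b, mulVec_mulVec, mulVec_mulVec, low_orth ab.1.1.2, low_orth ab.2.1.2]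
  · intro h
    refine ⟨(Matrix.of ab.1.1.1)ᵀ.mulVec ab.1.2, ?_, ?_⟩
    · rw [mulVec_mulVec, mul_eq_one_comm.1 (low_orth ab.1.1.2), one_mulVec]
    · rw [h, mulVec_mulVec, mul_eq_one_comm.1 (low_orth ab.2.1.2), one_mulVec]

theorem null_low {c : ℕ} (hF : ∀ p < c, SK.WFill (KK q) p)
    (hd : dimH (SO q) < ((c + 1 : ℕ) : ENNReal)) : NullHtp (susp q) := by
  refine nullHtp_of_conc (G := kr (lin fun g i j => g j i))
    (conc_hor hF (isCompact_SO q) hd fun g hg => isAt_kr_lin (sm_of (by fun_prop) _) ?_) fun t => ?_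
  · change (Matrix.of g)ᵀ.det ≠ 0
    rw [det_transpose, det_SO hg]
    exact one_ne_zero
  · rw [pb_kr continuous_subtype_val.continuousAt, low_toR]
    rfl

theorem null_one (h : ∀ g ∈ SO q, Matrix.of g = (1 : Matrix (Fin q) (Fin q) ℝ)) :
    NullHtp (susp q) := by
  have e : (lin fun (g : SO q) i j => g.1 j i) = Prod.snd := funext fun y => by
    change (Matrix.of y.1.1)ᵀ.mulVec y.2 = y.2
    rw [h _ y.1.2, transpose_one, one_mulVec]
  refine nullHtp_of_cs ?_
  rw [low_toR, e]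
  exact ⟨hor, isAt_hor _, fun x s _ => (pb_hor continuousAt_fst).symm,
    fun x s _ => (pb_hor continuousAt_fst).symm⟩

theorem null_SO0 : NullHtp (susp 0) := null_one fun _ _ => Subsingleton.elim _ _

theorem null_SO1 : NullHtp (susp 1) := null_one fun g hg => by
  have := det_SO hg
  rw [det_unique] at this
  ext i j
  rw [Subsingleton.elim i default, Subsingleton.elim j default, this, one_apply_eq]

theorem dim_SO2 : dimH (SO 2) < ((4 + 1 : ℕ) : ENNReal) := by
  refine lt_of_le_of_lt (dimH_mono (Set.subset_univ _)) ?_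
  rw [Real.dimH_univ_eq_finrank, Module.finrank_pi_fintype]
  simp only [Module.finrank_fin_fun, Finset.sum_const, Finset.card_univ, Fintype.card_fin]
  exact_mod_cast by decide

theorem low_dim {Y : Type} [NormedAddCommGroup Y] [NormedSpace ℝ Y] {S : Set Y} {d c : ℕ}
    (hc : d ≤ c) (F : (Fin 5 → Bool) → (Fin d → ℝ) → Y) (hF : ∀ s, ContDiff ℝ ∞ (F s))
    (hS : ∀ y ∈ S, ∃ s x, F s x = y) : dimH S < ((c + 1 : ℕ) : ENNReal) := by
  have h1 : S ⊆ ⋃ s, Set.range (F s) := fun y hy => by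
    obtain ⟨s, x, h⟩ := hS y hy
    exact Set.mem_iUnion.2 ⟨s, x, h⟩
  refine lt_of_le_of_lt (dimH_mono h1) (lt_of_le_of_lt (b := ((d : ℕ) : ENNReal)) ?_ ?_)
  · rw [dimH_iUnion]
    refine iSup_le fun s => ((hF s).of_le (by simp)).dimH_range_le.trans ?_
    simp
  · exact_mod_cast Nat.lt_succ_of_le hc

/-- the stabiliser of the first basis vector -/
def up (k : Matrix (Fin q) (Fin q) ℝ) : Matrix (Fin (q + 1)) (Fin (q + 1)) ℝ :=
  Matrix.of (vecCons (vecCons 1 0) fun i => vecCons 0 (k i))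

theorem up_orth {k : Matrix (Fin q) (Fin q) ℝ} (h : kᵀ * k = 1) : (up k)ᵀ * up k = 1 := by
  ext i j
  rw [mul_apply, Fin.sum_univ_succ]
  refine Fin.cases ?_ (fun i => ?_) i <;> refine Fin.cases ?_ (fun j => ?_) j <;>
    simp [up, one_apply, (Fin.succ_ne_zero _).symm]
  simpa [mul_apply, one_apply] using congrFun (congrFun h i) j

theorem hh3 {g : Mx} (hg : gᵀ * g = 1) (f0 : House_Fix 0 g) (f1 : House_Fix 1 g) :
    ∃ (x : Fin 3 → ℝ) (s : Fin 5 → Bool), g = refl ![0, 0, 1, x 0, x 1] * refl ![0, 0, 0, 1, x 2] *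
      diagonal (fun i => if s i then (1 : ℝ) else -1) := by
  obtain ⟨w2, g3, a2, z2, o3, e2, f32, p2⟩ := House_step hg 2
  have f30 := p2 0 (by decide) f0
  have f31 := p2 1 (by decide) f1
  obtain ⟨w3, g4, a3, z3, o4, e3, f43, p3⟩ := House_step o3 3
  have f40 := p3 0 (by decide) f30
  have f41 := p3 1 (by decide) f31
  have f42 := p3 2 (by decide) f32
  have hall : ∀ k : Fin 5, k ≠ 4 → House_Fix k g4 := fun k hk => by
    fin_cases k
    exacts [f40, f41, f42, f43, absurd rfl hk]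
  obtain ⟨s, hs⟩ := House_diag o4 fun j k hjk => by
    by_cases hk : k = 4
    · exact (hall j (hk ▸ hjk) k (Ne.symm hjk)).2
    · exact (hall k hk j hjk).1
  have b2 : w2 = ![0, 0, 1, w2 3, w2 4] := by
    have h0 := z2 0 (by decide) (f0 2 (by decide)).2
    have h1 := z2 1 (by decide) (f1 2 (by decide)).2
    ext j; fin_cases j <;> simp [a2, h0, h1]
  have b3 : w3 = ![0, 0, 0, 1, w3 4] := by
    have h0 := z3 0 (by decide) (f30 3 (by decide)).2
    have h1 := z3 1 (by decide) (f31 3 (by decide)).2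
    have h2 := z3 2 (by decide) (f32 3 (by decide)).2
    ext j; fin_cases j <;> simp [a3, h0, h1, h2]
  refine ⟨![w2 3, w2 4, w3 4], s, ?_⟩
  rw [e2, e3, hs]
  nth_rewrite 1 [b2, b3]
  simp only [mul_assoc]
  rfl

theorem dim_SO3 : dimH (SO 3) < ((5 + 1 : ℕ) : ENNReal) := by
  refine low_dim (d := 3) (by norm_num) (fun s x i j => mm (refl ![0, 0, 1, x 0, x 1] *
    refl ![0, 0, 0, 1, x 2] * diagonal (fun i => if s i then (1 : ℝ) else -1)) i.succ.succ
      j.succ.succ) (fun s => ?_) fun g hg => ?_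
  · refine (by fun_prop : ContDiff ℝ ∞ fun (k : M5) (i j : Fin 3) => k i.succ.succ j.succ.succ).comp
      (House_cd_mul (House_cd_mul (House_cd_refl (fun j => ?_) 2 fun _ => rfl)
        (House_cd_refl (fun j => ?_) 3 fun _ => rfl)) contDiff_const)
    all_goals fin_cases j <;> simp <;> fun_prop
  · obtain ⟨x, s, h⟩ := hh3 (up_orth (up_orth (low_orth hg)))
      (fun j hj => by fin_cases j <;> simp [up] at hj ⊢)
      (fun j hj => by fin_cases j <;> simp [up] at hj ⊢)
    exact ⟨s, x, by rw [← h]; rfl⟩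

theorem dim_SO4 : dimH (SO 4) < ((6 + 1 : ℕ) : ENNReal) := by
  refine low_dim (d := 6) le_rfl (fun s x i j => mm (refl ![1, 0, 0, 0, 0] *
    refl ![0, 1, x 0, x 1, x 2] * refl ![0, 0, 1, x 3, x 4] * refl ![0, 0, 0, 1, x 5] *
      diagonal (fun i => if s i then (1 : ℝ) else -1)) i.succ j.succ) (fun s => ?_) fun g hg => ?_
  · refine (by fun_prop : ContDiff ℝ ∞ fun (k : M5) (i j : Fin 4) => k i.succ j.succ).comp
      (House_cd_mul (House_cd_mul (House_cd_mul (House_cd_mul contDiff_const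
        (House_cd_refl (fun j => ?_) 1 fun _ => rfl)) (House_cd_refl (fun j => ?_) 2 fun _ => rfl))
        (House_cd_refl (fun j => ?_) 3 fun _ => rfl)) contDiff_const)
    all_goals fin_cases j <;> simp <;> fun_prop
  · obtain ⟨a, b, c, e, s, h, h2⟩ := householder (up_orth (low_orth hg))
    refine ⟨s, ![b 0, b 1, b 2, c 0, c 1, e], ?_⟩
    rw [h2 0 rfl, h2 1 rfl, h2 2 rfl, h2 3 rfl] at h
    change (fun (i j : Fin 4) => mm (refl ![1, 0, 0, 0, 0] * refl ![0, 1, b 0, b 1, b 2] *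
      refl ![0, 0, 1, c 0, c 1] * refl ![0, 0, 0, 1, e] *
        diagonal (fun i => if s i then (1 : ℝ) else -1)) i.succ j.succ) = g
    rw [← h]
    rfl

end

end Pool.Agent.P.MP_878f14_gt.S6
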