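import Pool.Agent.P.MP_878f14_gt.S6.Dim

/-! The suspension of the action of the rotation group in dimension six. -/

namespace Pool.Agent.P.MP_878f14_gt.S6

open Pool.Agent.P.MP_878f14_gt.HT.Q Filter Topology Function Matrix
open scoped ContDiff

noncomputable section

theorem orth' {g : M6} (hg : g ∈ SO 6) : Matrix.of g * (Matrix.of g)ᵀ = (1 : My) :=
  mul_eq_one_comm.1 (orth hg)

theorem toR_susp6 : toR (susp 6) = kr (lin (tr ∘ (Subtype.val : SO 6 → M6))) := by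
  funext t
  have e : toR (susp 6) t = rel {ab : (SO 6 × E 6) × (SO 6 × E 6) | ∃ v,
      ab.1.2 = (Matrix.of ab.1.1.1).mulVec v ∧ ab.2.2 = (Matrix.of ab.2.1.1).mulVec v} t := rfl
  rw [e, kr]
  refine rel_eq_iff.2 (.of_forall fun ab => ?_)
  change (∃ v, _) ↔ (Matrix.of ab.1.1.1)ᵀ.mulVec ab.1.2 = (Matrix.of ab.2.1.1)ᵀ.mulVec ab.2.2
  constructor
  · rintro ⟨v, a, b⟩
    rw [a, b, mulVec_mulVec, mulVec_mulVec, orth ab.1.1.2, orth ab.2.1.2]
  · intro h
    refine ⟨(Matrix.of ab.1.1.1)ᵀ.mulVec ab.1.2, ?_, ?_⟩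
    · rw [mulVec_mulVec, orth' ab.1.1.2, one_mulVec]
    · rw [h, mulVec_mulVec, orth' ab.2.1.2, one_mulVec]

theorem rm_mem {N : Amb} (h : N ∈ X0) {g : M6} (hg : g ∈ SO 6) : rm N g ∈ X0 := by
  obtain ⟨x, F, h0, hF, hx⟩ := h
  refine ⟨x, F * Matrix.of g, h0, ?_, fun i => ?_⟩
  · rw [transpose_mul, mul_assoc, ← mul_assoc (Matrix.of g), orth' hg, one_mul, hF]
  · rw [rm, of_m6, hx, mul_assoc]

theorem null_SO6 (hF : ∀ p < 8, SK.WFill (KK 6) p) : NullHtp (susp 6) := by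
  obtain ⟨δ, hδ⟩ := exists_good hF
  have G := goodOn_Dl hδ
  have c3 : ContDiff ℝ ∞ fun g => N3 (cl 0 g) := cd_N3.comp (cd_cl 0)
  have cA : ContDiff ℝ ∞ fun g => rm (N0 g) g := cd_rm.comp (cd_N0.prodMk contDiff_id)
  have s1 := G.seg (S := SO 6) cd_N0 cd_N1 fun g hg θ _ _ => (segs hg θ).1
  have s2 := G.seg (S := SO 6) cd_N1 cd_N2 fun g hg θ _ _ => (segs hg θ).2.1
  have s3 := G.seg (S := SO 6) cd_N2 c3 fun g hg θ _ _ => (segs hg θ).2.2
  have a := (G.mono (P' := (fun g => rm (N0 g) g) '' SO 6) (by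
    rintro _ ⟨g, hg, rfl⟩
    exact rm_mem (by simpa using (segs hg 0).1) hg)).null (S := SO 6) hF
    ((isCompact_SO 6).image cA.continuous) dimA cA cd_tr (fun g hg => by
      change (Matrix.of g)ᵀ.det ≠ 0
      rw [det_transpose, det_SO hg]
      exact one_ne_zero) fun g hg => ⟨g, hg, rfl⟩
  have b := (G.mono (P' := (fun g => N3 (cl 0 g)) '' SO 6) (by
    rintro _ ⟨g, hg, rfl⟩
    simpa using (segs hg 1).2.2)).null (S := SO 6) (L := fun _ => m6 1) hF
    ((isCompact_SO 6).image c3.continuous) dimB c3 contDiff_const (fun g hg => by simp)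
    fun g hg => ⟨g, hg, rfl⟩
  have e : lin ((fun _ => m6 1) ∘ (Subtype.val : SO 6 → M6)) = Prod.snd :=
    funext fun y => one_mulVec _
  rw [e] at b
  have e' : pl ((fun g => rm (N0 g) g) ∘ (Subtype.val : SO 6 → M6)) (lin (tr ∘ Subtype.val))
      (Dl δ) = pb (N0 ∘ Subtype.val) (Dl δ) := funext fun t =>
    Dl_rm (cd_N0.continuous.comp continuous_subtype_val) continuous_subtype_val
      (fun z => orth' z.2) t
  rw [e', ← toR_susp6] at a
  exact nullHtp_of_cs (CS.trans b ((a.trans s1).trans (s2.trans s3)).symm)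

end

end Pool.Agent.P.MP_878f14_gt.S6
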