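import Pool.Agent.P.MP_878f14_gt.HT.Q.Quat

/-! Quaternions acting on the last four coordinates of `ℝ ^ 6`. -/

namespace Pool.Agent.P.MP_878f14_gt.S6

open Pool.Agent.P.MP_878f14_gt.HT.Q Filter Topology Function Matrix
open scoped ContDiff

noncomputable section

abbrev M6 : Type := Fin 6 → Fin 6 → ℝ

abbrev My : Type := Matrix (Fin 6) (Fin 6) ℝ

/-- a matrix as a function -/
def m6 (A : My) : M6 := fun i j => A i j

@[simp] theorem of_m6 (A : My) : Matrix.of (m6 A) = A := rfl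

@[simp] theorem m6_of (g : M6) : m6 (Matrix.of g) = g := rfl

/-- left multiplication -/
def L6 (a : H4) : My :=
  !![0, 0, 0, 0, 0, 0; 0, 0, 0, 0, 0, 0; 0, 0, a 0, -a 1, -a 2, -a 3; 0, 0, a 1, a 0, -a 3, a 2;
    0, 0, a 2, a 3, a 0, -a 1; 0, 0, a 3, -a 2, a 1, a 0]

def E6 : My := !![1, 0, 0, 0, 0, 0; 0, 1, 0, 0, 0, 0; 0, 0, 0, 0, 0, 0; 0, 0, 0, 0, 0, 0;
  0, 0, 0, 0, 0, 0; 0, 0, 0, 0, 0, 0]

def Lm6 (a : H4) : My := E6 + L6 a

variable (a b c : H4)

theorem L6_mul : L6 a * L6 b = L6 (qm a b) := by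
  ext i j
  fin_cases i <;> fin_cases j <;>
    simp [L6, qm, Matrix.mul_apply, Fin.sum_univ_succ] <;> ring

theorem E6_L6 : E6 * L6 a = 0 := by
  ext i j
  fin_cases i <;> fin_cases j <;> simp [L6, E6, Matrix.mul_apply, Fin.sum_univ_succ]

theorem L6_E6 : L6 a * E6 = 0 := by
  ext i j
  fin_cases i <;> fin_cases j <;> simp [L6, E6, Matrix.mul_apply, Fin.sum_univ_succ]

theorem E6_E6 : E6 * E6 = E6 := by
  ext i j
  fin_cases i <;> fin_cases j <;> simp [E6, Matrix.mul_apply, Fin.sum_univ_succ]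

theorem Lm6_mul : Lm6 a * Lm6 b = Lm6 (qm a b) := by
  simp only [Lm6, add_mul, mul_add, E6_E6, E6_L6, L6_E6, L6_mul, add_zero, zero_add]

theorem L6_Lm6 : L6 a * Lm6 b = L6 (qm a b) := by
  simp only [Lm6, mul_add, L6_E6, L6_mul, zero_add]

theorem E6_Lm6 : E6 * Lm6 a = E6 := by
  simp only [Lm6, mul_add, E6_E6, E6_L6, add_zero]

theorem Lm6_q1 : Lm6 q1 = 1 := by
  ext i j
  fin_cases i <;> fin_cases j <;> simp [Lm6, L6, E6, q1]

theorem L6_smul (r : ℝ) : L6 (r • a) = r • L6 a := by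
  ext i j
  fin_cases i <;> fin_cases j <;> simp [L6]

theorem L6_add : L6 (a + b) = L6 a + L6 b := by
  ext i j
  fin_cases i <;> fin_cases j <;> simp [L6] <;> ring

theorem L6_zero : L6 0 = 0 := by
  rw [← zero_smul ℝ (0 : H4), L6_smul, zero_smul]

theorem L6_sub : L6 (a - b) = L6 a - L6 b := by
  rw [sub_eq_add_neg, L6_add, ← neg_one_smul ℝ b, L6_smul, neg_one_smul, sub_eq_add_neg]

theorem L6_transpose : (L6 a)ᵀ = L6 (qc a) := by
  ext i j
  fin_cases i <;> fin_cases j <;> simp [L6, qc]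

theorem Lm6_transpose : (Lm6 a)ᵀ = Lm6 (qc a) := by
  ext i j
  fin_cases i <;> fin_cases j <;> simp [Lm6, L6, E6, qc]

/-- the inverse -/
def qi (a : H4) : H4 := (ns a)⁻¹ • qc a

theorem ns_ne {a : H4} (h : a ≠ 0) : ns a ≠ 0 := fun e => h (ns_eq_zero.1 e)

theorem ns_pos {a : H4} (h : a ≠ 0) : 0 < ns a := lt_of_le_of_ne (ns_nonneg a) (ns_ne h).symm

theorem qm_qi {a : H4} (h : a ≠ 0) : qm a (qi a) = q1 := by
  rw [qi, qm_smul, qm_qc, smul_smul, inv_mul_cancel₀ (ns_ne h), one_smul]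

theorem qi_qm {a : H4} (h : a ≠ 0) : qm (qi a) a = q1 := by
  rw [qi, smul_qm, qc_qm, smul_smul, inv_mul_cancel₀ (ns_ne h), one_smul]

theorem ns_qi {a : H4} (h : a ≠ 0) : ns (qi a) = (ns a)⁻¹ := by
  have := ns_ne h
  rw [qi, ns_smul, ns_qc]
  field_simp

theorem qm_ne {a b : H4} (ha : a ≠ 0) (hb : b ≠ 0) : qm a b ≠ 0 := fun e => by
  have := ns_qm a b
  rw [e, ns_eq_zero.2 rfl] at this
  exact mul_ne_zero (ns_ne ha) (ns_ne hb) this.symm

theorem qi_ne {a : H4} (ha : a ≠ 0) : qi a ≠ 0 := fun e => by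
  have := ns_qi ha
  rw [e, ns_eq_zero.2 rfl] at this
  exact inv_ne_zero (ns_ne ha) this.symm

theorem qi_mul {a b : H4} (ha : a ≠ 0) (hb : b ≠ 0) : qm b (qi (qm a b)) = qi a := by
  have := ns_ne ha
  have := ns_ne hb
  rw [qi, qm_smul, qc_mul, ← qm_assoc, qm_qc, smul_qm, q1_qm, smul_smul, ns_qm, qi]
  congr 1
  field_simp

theorem det_Lm6_ne {a : H4} (h : a ≠ 0) : (Lm6 a).det ≠ 0 := fun e => by
  have := congrArg Matrix.det (Lm6_mul a (qi a))
  rw [qm_qi h, Lm6_q1, det_mul, e, det_one, zero_mul] at this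
  exact zero_ne_one this

theorem sm_qi {a : H4} (h : a ≠ 0) : Sm qi a := by
  filter_upwards [contDiff_ns.continuous.continuousAt.eventually_ne (ns_ne h)] with x hx
  exact (contDiff_ns.contDiffAt.inv hx).smul contDiff_qc.contDiffAt

theorem contDiff_L6 : ContDiff ℝ ∞ fun a => m6 (L6 a) := by
  refine contDiff_pi.2 fun i => contDiff_pi.2 fun j => ?_
  fin_cases i <;> fin_cases j <;> simp [m6, L6] <;> fun_prop

theorem contDiff_Lm6 : ContDiff ℝ ∞ fun a => m6 (Lm6 a) :=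
  (contDiff_const (c := m6 E6)).add contDiff_L6

theorem contDiff_mul6 : ContDiff ℝ ∞ fun z : M6 × M6 => m6 (Matrix.of z.1 * Matrix.of z.2) := by
  refine contDiff_pi.2 fun i => contDiff_pi.2 fun j => ?_
  simp only [m6, Matrix.mul_apply, Matrix.of_apply]
  fun_prop

/-- the quaternion read off from a pair of matrices -/
def hh (A B : My) : H4 := ![(A * Bᵀ) 2 2, (A * Bᵀ) 3 2, (A * Bᵀ) 4 2, (A * Bᵀ) 5 2]

theorem contDiff_hh : ContDiff ℝ ∞ fun z : M6 × M6 => hh (Matrix.of z.1) (Matrix.of z.2) := by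
  refine contDiff_pi.2 fun i => ?_
  fin_cases i <;> simp [hh, Matrix.mul_apply] <;> fun_prop

theorem hh_mul (A B : My) {g : My} (hg : g * gᵀ = 1) : hh (A * g) (B * g) = hh A B := by
  have : A * g * (B * g)ᵀ = A * Bᵀ := by
    rw [transpose_mul, Matrix.mul_assoc, ← Matrix.mul_assoc g, hg, Matrix.one_mul]
  simp only [hh, this]

theorem hh_Lm6 : hh (Lm6 a) (Lm6 b) = qm a (qc b) := by
  simp only [hh, Lm6_transpose, Lm6_mul]
  ext i
  fin_cases i <;> simp [Lm6, L6, E6]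

theorem hh_L6 : hh (L6 a) (L6 b) = qm a (qc b) := by
  simp only [hh, L6_transpose, L6_mul]
  ext i
  fin_cases i <;> simp [L6]

end

end Pool.Agent.P.MP_878f14_gt.S6
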