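import Pool.Agent.P.MP_878f14_gt.S6.Alg
import Pool.Agent.P.MP_878f14_gt.S6.Dl

/-! The four triples of sections over the rotation group. -/

namespace Pool.Agent.P.MP_878f14_gt.S6

open Pool.Agent.P.MP_878f14_gt.HT.Q Filter Topology Function Matrix
open scoped ContDiff

noncomputable section

def lm (x : H4) (A : M6) : M6 := m6 (L6 x * Matrix.of A)

def hp (A B : M6) : H4 := hh (Matrix.of A) (Matrix.of B)

def ph (F : My) : H4 →ₗ[ℝ] M6 where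
  toFun y := m6 (L6 y * F)
  map_add' a b := by
    rw [L6_add, add_mul]
    rfl
  map_smul' r a := by
    rw [L6_smul, smul_mul_assoc]
    rfl

def TT (v y : R6) : M6 := lm q1 (m6 (fr v (pr v y)))

def EE (v : R6) : M6 := m6 (E6 * fr v (pr v 0))

def PP (v : R6) : M6 := TT v (ee 0) - lm qJ (TT v (ee 1))

def QQ (v : R6) : M6 := -lm qI (TT v (ee 0) + lm qJ (TT v (ee 1)))

def DM (c : ℝ) (A Q Z : M6) : M6 := c • Q + lm (qm (hp A Z) qK) Z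

def nuM (c : ℝ) (A Q D : M6) : ℝ := c * hp Q A 0 + (1 - c ^ 2) * hp (lm qI D) A 0

def XM (c : ℝ) (A Q D : M6) : M6 :=
  c • D + (1 - c ^ 2) • lm qI D + (1 - c) • (hp Q A 0 • lm qI A - hp (lm qI D) A 0 • A)

def cl (k : Fin 6) (g : M6) : R6 := fun i => g i k

def cc (k : Fin 6) (g : M6) : ℝ := cl k g ⬝ᵥ Jv (cl 0 g)

def Tk (k : Fin 6) (g : M6) : M6 := TT (cl 0 g) (cl k g)

def DD (g : M6) : M6 := DM (cc 1 g) (Tk 1 g) (QQ (cl 0 g)) (TT (cl 0 g) (ee 2))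

def tri (e a b c : M6) : Amb := ![e + a, e + b, e + c]

def N0 (g : M6) : Amb := tri (EE (cl 0 g)) 0 (cc 2 g • Tk 1 g) (Tk 2 g)

def N1 (g : M6) : Amb := tri (EE (cl 0 g)) (PP (cl 0 g) - Tk 1 g)
  (XM (cc 1 g) (Tk 1 g) (QQ (cl 0 g)) (DD g)) (nuM (cc 1 g) (Tk 1 g) (QQ (cl 0 g)) (DD g) • Tk 1 g)

def N2 (g : M6) : Amb := tri (EE (cl 0 g)) (PP (cl 0 g)) (QQ (cl 0 g)) (lm qI (Tk 1 g))

def N3 (v : R6) : Amb := tri (EE v) (PP v) (QQ v) 0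

section

variable {X : Type} [NormedAddCommGroup X] [NormedSpace ℝ X]

@[fun_prop] theorem cd_lm {x : X → H4} {A : X → M6} (hx : ContDiff ℝ ∞ x) (hA : ContDiff ℝ ∞ A) :
    ContDiff ℝ ∞ fun t => lm (x t) (A t) :=
  contDiff_mul6.comp ((contDiff_L6.comp hx).prodMk hA)

@[fun_prop] theorem cd_hp {A B : X → M6} (hA : ContDiff ℝ ∞ A) (hB : ContDiff ℝ ∞ B) :
    ContDiff ℝ ∞ fun t => hp (A t) (B t) := contDiff_hh.comp (hA.prodMk hB)

@[fun_prop] theorem cd_qm {a b : X → H4} (ha : ContDiff ℝ ∞ a) (hb : ContDiff ℝ ∞ b) :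
    ContDiff ℝ ∞ fun t => qm (a t) (b t) := contDiff_qm.comp (ha.prodMk hb)

@[fun_prop] theorem cd_TT {v y : X → R6} (hv : ContDiff ℝ ∞ v) (hy : ContDiff ℝ ∞ y) :
    ContDiff ℝ ∞ fun t => TT (v t) (y t) := cd_lm contDiff_const (cd_frpr.comp (hv.prodMk hy))

@[fun_prop] theorem cd_EE : ContDiff ℝ ∞ EE :=
  contDiff_mul6.comp ((contDiff_const (c := m6 E6)).prodMk
    (cd_frpr.comp (contDiff_id.prodMk contDiff_const)))

@[fun_prop] theorem cd_cl (k : Fin 6) : ContDiff ℝ ∞ (cl k) := by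
  unfold cl
  fun_prop

@[fun_prop] theorem cd_cc (k : Fin 6) : ContDiff ℝ ∞ (cc k) := by
  unfold cc
  simp [dotProduct, Fin.sum_univ_six, Jv, cl]
  fun_prop

@[fun_prop] theorem cd_Tk (k : Fin 6) : ContDiff ℝ ∞ (Tk k) := by
  unfold Tk
  fun_prop

@[fun_prop] theorem cd_PP : ContDiff ℝ ∞ PP := by
  unfold PP
  fun_prop

@[fun_prop] theorem cd_QQ : ContDiff ℝ ∞ QQ := by
  unfold QQ
  fun_prop

@[fun_prop] theorem cd_DD : ContDiff ℝ ∞ DD := by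
  unfold DD DM
  fun_prop

theorem cd_tri {e a b c : X → M6} (he : ContDiff ℝ ∞ e) (ha : ContDiff ℝ ∞ a)
    (hb : ContDiff ℝ ∞ b) (hc : ContDiff ℝ ∞ c) :
    ContDiff ℝ ∞ fun t => tri (e t) (a t) (b t) (c t) := by
  refine contDiff_pi.2 fun i => ?_
  fin_cases i
  exacts [he.add ha, he.add hb, he.add hc]

theorem cd_N0 : ContDiff ℝ ∞ N0 := by
  refine cd_tri ?_ ?_ ?_ ?_ <;> fun_prop

theorem cd_N1 : ContDiff ℝ ∞ N1 := by
  unfold N1 XM nuM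
  refine cd_tri ?_ ?_ ?_ ?_ <;> fun_prop

theorem cd_N2 : ContDiff ℝ ∞ N2 := by
  refine cd_tri ?_ ?_ ?_ ?_ <;> fun_prop

theorem cd_N3 : ContDiff ℝ ∞ N3 := by
  refine cd_tri ?_ ?_ ?_ ?_ <;> fun_prop

end

/-- the triple with given coordinates in a frame -/
def AA (F : My) (x : Fin 3 → H4) : Amb := fun i => m6 (Lm6 (x i) * F)

theorem AA_eq (F : My) (a b c : H4) :
    tri (m6 (E6 * F)) (ph F a) (ph F b) (ph F c) = AA F ![a, b, c] := by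
  have e : ∀ y, m6 (E6 * F) + ph F y = m6 (Lm6 y * F) := fun y => by
    rw [Lm6, add_mul]
    rfl
  funext i
  fin_cases i
  exacts [e a, e b, e c]

theorem AA_seg {F : My} (hF : F * Fᵀ = 1) {x y : Fin 3 → H4} {θ : ℝ} (h : x + θ • (y - x) ≠ 0) :
    AA F x + θ • (AA F y - AA F x) ∈ X0 := by
  refine ⟨_, F, h, hF, fun i => ?_⟩
  change Lm6 (x i) * F + θ • (Lm6 (y i) * F - Lm6 (x i) * F) = Lm6 (x i + θ • (y i - x i)) * F
  simp only [Lm6, L6_add, L6_smul, L6_sub, add_mul, sub_mul, smul_mul_assoc]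
  module

theorem lm_ph (F : My) (x y : H4) : lm x (ph F y) = ph F (qm x y) := by
  change m6 (L6 x * (L6 y * F)) = m6 (L6 (qm x y) * F)
  rw [← Matrix.mul_assoc, L6_mul]

theorem hp_ph {F : My} (hF : F * Fᵀ = 1) (x y : H4) : hp (ph F x) (ph F y) = qm x (qc y) :=
  (hh_mul _ _ hF).trans (hh_L6 x y)

theorem co_dot {F : My} (hF : F * Fᵀ = 1) (y y' : R6) : qm (co F y') (qc (co F y)) 0 =
    y' ⬝ᵥ y - (y' ⬝ᵥ F 0) * (y ⬝ᵥ F 0) - (y' ⬝ᵥ F 1) * (y ⬝ᵥ F 1) := by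
  have e : y' ⬝ᵥ y = (F *ᵥ y') ⬝ᵥ (F *ᵥ y) := by
    rw [dotProduct_mulVec, ← mulVec_transpose, mulVec_mulVec, mul_eq_one_comm.1 hF, one_mulVec]
  have e2 : ∀ (u : R6) i, u ⬝ᵥ F i = (F *ᵥ u) i := fun u i => dotProduct_comm _ _
  rw [e, e2, e2, e2, e2, co, co]
  generalize F *ᵥ y = u
  generalize F *ᵥ y' = u'
  simp [qm, qc, dotProduct, Fin.sum_univ_six]
  ring

theorem orth {g : M6} (hg : g ∈ SO 6) : (Matrix.of g)ᵀ * Matrix.of g = (1 : My) :=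
  (Matrix.mem_orthogonalGroup_iff' _ _).1 (Matrix.mem_specialOrthogonalGroup_iff.1 hg).1

theorem cl_dot {g : M6} (hg : g ∈ SO 6) (k l : Fin 6) : cl k g ⬝ᵥ cl l g = (1 : My) k l :=
  congrFun (congrFun (orth hg) k) l

theorem exists_data {g : M6} (hg : g ∈ SO 6) : ∃ (F : My) (p q z : H4), F * Fᵀ = 1 ∧
    F 0 = cl 0 g ∧ F 1 = Jv (cl 0 g) ∧ Rel2 p q z ∧
    N0 g = AA F (x0 (cc 2 g) (co F (cl 1 g)) (co F (cl 2 g))) ∧
    N1 g = AA F (x1 (cc 1 g) (co F (cl 1 g)) p q z) ∧ N2 g = AA F (x2 (co F (cl 1 g)) p q) ∧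
    N3 (cl 0 g) = AA F (x3 p q) := by
  obtain ⟨F, hF, f0, f1, hy, hr⟩ := exists_frame (v := cl 0 g) (by rw [cl_dot hg, one_apply_eq])
  have t : ∀ y, TT (cl 0 g) y = ph F (co F y) := fun y => by
    change m6 (L6 q1 * fr _ _) = m6 (L6 _ * F)
    rw [hy, ← Matrix.mul_assoc, L6_Lm6, q1_qm]
  have e : EE (cl 0 g) = m6 (E6 * F) := by rw [EE, hy, ← Matrix.mul_assoc, E6_Lm6]
  have p : PP (cl 0 g) = ph F (pq (co F (ee 0)) (co F (ee 1))) := by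
    rw [PP, t, t, lm_ph, pq, map_sub]
  have q : QQ (cl 0 g) = ph F (qq (co F (ee 0)) (co F (ee 1))) := by
    rw [QQ, t, t, lm_ph, ← map_add, lm_ph, qq, map_neg]
  have d : DD g = ph F (Dq (cc 1 g) (co F (cl 1 g)) (qq (co F (ee 0)) (co F (ee 1)))
      (co F (ee 2))) := by
    simp only [DD, DM, Dq, Tk, t, q, map_add, map_smul, lm_ph, hp_ph hF]
  refine ⟨F, _, _, _, hF, f0, f1, hr.rel2, ?_, ?_, ?_, ?_⟩
  · simp only [N0, x0, ← AA_eq, e, Tk, t, map_smul, map_zero]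
  · simp only [N1, x1, ← AA_eq, e, Tk, t, p, q, d, XM, Xq, nuM, nuq, map_smul, map_sub, map_add,
      lm_ph, hp_ph hF]
  · simp only [N2, x2, ← AA_eq, e, Tk, t, p, q, lm_ph]
  · simp only [N3, x3, ← AA_eq, e, p, q, map_zero]

theorem segs {g : M6} (hg : g ∈ SO 6) (θ : ℝ) : N0 g + θ • (N1 g - N0 g) ∈ X0 ∧
    N1 g + θ • (N2 g - N1 g) ∈ X0 ∧ N2 g + θ • (N3 (cl 0 g) - N2 g) ∈ X0 := by
  obtain ⟨F, p, q, z, hF, f0, f1, hr, e0, e1, e2, e3⟩ := exists_data hg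
  have k : ∀ k l, qm (co F (cl k g)) (qc (co F (cl l g))) 0 =
      (1 : My) k l - (1 : My) k 0 * (1 : My) l 0 - cc k g * cc l g := fun k l => by
    rw [co_dot hF, f0, f1, cl_dot hg, cl_dot hg, cl_dot hg, cc, cc]
  have n : ∀ l, l ≠ 0 → ns (co F (cl l g)) = 1 - cc l g ^ 2 := fun l hl => by
    have := k l l
    rw [qm_qc, one_apply_eq, one_apply_ne hl] at this
    simpa [q1, sq] using this
  have m : qm (co F (cl 2 g)) (qc (co F (cl 1 g))) 0 = -(cc 1 g * cc 2 g) := by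
    rw [k, one_apply_ne (by decide), one_apply_ne (by decide)]
    ring
  rw [e0, e1, e2, e3]
  exact ⟨AA_seg hF (seg1 (n 1 (by decide)) (n 2 (by decide)) m hr),
    AA_seg hF (seg2 (n 1 (by decide)) hr), AA_seg hF (seg3 hr)⟩

end

end Pool.Agent.P.MP_878f14_gt.S6
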